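import Pool.Agent.Helper93.TLH.M_Core1

/-!
# Project TH: a symbol of level `98` is determined by five values
-/

set_option autoImplicit false

namespace Pool.Agent.Helper93.TLH

open Pool.Agent.Helper14.CV (Homog EqC act Tl StFar StFex)
open Pool.Agent.Helper28.WK (Tw evw)
open Pool.Agent.Helper4.TL (OkE)

/-- The content of BS for `p = 7`: a symbol `K` of level `98` with `K∘W ≈ -K`, `K∘* ≈ K` and `K(∞) = K(0) = K(1/7) = K(2/7) = K(3/7)` is constant. -/
def BsH7 : Prop := ∀ K : ℤ → ℤ → ℂ, SymH 7 0 2 K → EqC (act 0 (-1) (2 * (7 : ℤ) ^ 2) 0 K) (-K) →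
  EqC (act (-1) 0 0 1 K) K → K 0 1 = K 1 0 → K 1 7 = K 1 0 → K 2 7 = K 1 0 → K 3 7 = K 1 0 →
  EqC K 0

/-- The representatives of determinant one. -/
private def L1 : List (ℤ × ℤ × ℤ × ℤ) :=
  [(5, 2, 2, 1), (5, -3, 2, -1), (-5, -3, 2, 1), (-5, 2, 2, -1), (-3, -2, 2, 1), (-3, 1, 2, -1),
    (1, -2, 2, -3), (-3, 2, 4, -3), (-1, -2, 2, 3), (-1, -1, 2, 1), (-1, 0, 2, -1),
    (-1, 1, 2, -3), (-1, -1, 4, 3), (-1, 0, 4, -1), (-1, -1, 6, 5), (-1, 0, 6, -1), (1, 0, 6, 1),
    (1, -1, 6, -5), (1, 0, 4, 1), (1, -3, 0, 1), (1, -2, 0, 1), (1, -1, 0, 1), (1, 0, 0, 1),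
    (1, 1, 0, 1), (1, 2, 0, 1), (1, 3, 0, 1), (1, -1, 2, -1), (1, 0, 2, 1), (1, 1, 2, 3),
    (1, -1, 4, -3), (3, -2, 2, -1), (3, 1, 2, 1), (3, 2, 4, 3)]

/-- The representatives of determinant two. -/
private def L2 : List (ℤ × ℤ × ℤ × ℤ) :=
  [(4, -1, 2, 0), (4, -5, 2, -2), (6, 5, 2, 2), (6, -1, 2, 0), (-6, -1, 2, 0), (-6, 5, 2, -2),
    (-4, -5, 2, 2), (-4, -1, 2, 0), (-2, -3, 2, 2), (-2, -1, 2, 0), (-2, -1, 6, 2),
    (-2, 1, 10, -6), (0, -1, 2, 4), (0, -1, 2, 6), (0, -1, 2, -6), (0, -1, 2, -4),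
    (0, -1, 2, -2), (0, -1, 2, 0), (0, -1, 2, 2), (2, -3, 2, -2), (2, -1, 2, 0), (2, -1, 6, -2),
    (2, 1, 10, 6)]

set_option maxRecDepth 100000 in
private lemma cls : ∀ p q r s : ZMod 7, p * s - q * r = 1 → ∃ t ∈ L1 ++ L2,
    q * (t.1 : ZMod 7) - p * (t.2.1 : ZMod 7) = 0 ∧
      r * (t.2.2.2 : ZMod 7) - s * (t.2.2.1 : ZMod 7) = 0 := by decide

private lemma dvd7 {n : ℤ} : (7 : ℤ) ∣ n ↔ (n : ZMod 7) = 0 :=
  (ZMod.intCast_zmod_eq_zero_iff_dvd n 7).symm

/-- The symmetries of `F(x, y) = K(x, 7y)`. -/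
private structure Inv (F : ℤ → ℤ → ℂ) : Prop where
  hom : Homog F
  gam : ∀ a b c d : ℤ, HTy a (7 * b) (7 * c) d → ∀ x y z w : ℤ, (x ≠ 0 ∨ y ≠ 0) →
    (z ≠ 0 ∨ w ≠ 0) → F (a * x + 7 * b * y) (7 * c * x + d * y) -
      F (a * z + 7 * b * w) (7 * c * z + d * w) = F x y - F z w
  st : ∀ x y z w : ℤ, (x ≠ 0 ∨ y ≠ 0) → (z ≠ 0 ∨ w ≠ 0) →
    F (-x) y - F (-z) w = F x y - F z w
  sw : ∀ x y z w : ℤ, (x ≠ 0 ∨ y ≠ 0) → (z ≠ 0 ∨ w ≠ 0) →
    F (-y) (2 * x) - F (-w) (2 * z) = -(F x y - F z w)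

private theorem nz {a b c d e : ℤ} (h : a * d - b * c = e) (he : e ≠ 0) :
    (a ≠ 0 ∨ c ≠ 0) ∧ (b ≠ 0 ∨ d ≠ 0) := by
  constructor
  · by_contra hcon
    push Not at hcon
    rw [hcon.1, hcon.2] at h
    apply he
    rw [← h]
    ring
  · by_contra hcon
    push Not at hcon
    rw [hcon.1, hcon.2] at h
    apply he
    rw [← h]
    ring

private theorem one {F : ℤ → ℤ → ℂ} (h : Inv F) {r1 r2 r3 r4 : ℤ} (hr : HTy r1 r2 r3 r4)
    (h0 : F r1 r3 = F r2 r4)
    {p q r s : ℤ} (hd : p * s - q * r = 1) (hpar : (2 : ℤ) ∣ r) (e1 : (7 : ℤ) ∣ q * r1 - p * r2)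
    (e2 : (7 : ℤ) ∣ r * r4 - s * r3) : F p r = F q s := by
  obtain ⟨b, hb⟩ := e1
  obtain ⟨c, hc⟩ := e2
  have hpr := (nz hd one_ne_zero).1
  have hqs := (nz hd one_ne_zero).2
  have hprod : 7 * b * (7 * c) = (q * r1 - p * r2) * (r * r4 - s * r3) := by rw [hb, hc]
  rcases hr with ⟨hr, hr3⟩ | ⟨hr, hr1, hr3, hr4⟩
  · obtain ⟨n1, n2⟩ := nz hr one_ne_zero
    have hT : HTy (p * r4 - q * r3) (7 * b) (7 * c) (s * r1 - r * r2) := by
      refine Or.inl ⟨?_, ?_⟩
      · rw [hprod]
        linear_combination (p * s - q * r) * hr + hd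
      · rw [← hc]
        exact dvd_sub (Dvd.dvd.mul_right hpar _) (Dvd.dvd.mul_left hr3 _)
    have e := h.gam _ b c _ hT r1 r3 r2 r4 n1 n2
    have g1 : (p * r4 - q * r3) * r1 + 7 * b * r3 = p := by
      linear_combination p * hr - r3 * hb
    have g2 : 7 * c * r1 + (s * r1 - r * r2) * r3 = r := by
      linear_combination r * hr - r1 * hc
    have g3 : (p * r4 - q * r3) * r2 + 7 * b * r4 = q := by
      linear_combination q * hr - r4 * hb
    have g4 : 7 * c * r2 + (s * r1 - r * r2) * r4 = s := by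
      linear_combination s * hr - r2 * hc
    rw [g1, g2, g3, g4, h0, sub_self] at e
    exact sub_eq_zero.1 e
  · obtain ⟨n1, n2⟩ := nz hr two_ne_zero
    have hT : HTy (p * r4 - q * r3) (7 * b) (7 * c) (s * r1 - r * r2) := by
      refine Or.inr ⟨?_, ?_, ?_, ?_⟩
      · rw [hprod]
        linear_combination (p * s - q * r) * hr + 2 * hd
      · exact dvd_sub (Dvd.dvd.mul_left hr4 _) (Dvd.dvd.mul_left hr3 _)
      · rw [← hc]
        exact dvd_sub (Dvd.dvd.mul_right hpar _) (Dvd.dvd.mul_left hr3 _)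
      · exact dvd_sub (Dvd.dvd.mul_left hr1 _) (Dvd.dvd.mul_right hpar _)
    have e := h.gam _ b c _ hT r1 r3 r2 r4 n1 n2
    have g1 : (p * r4 - q * r3) * r1 + 7 * b * r3 = 2 * p := by
      linear_combination p * hr - r3 * hb
    have g2 : 7 * c * r1 + (s * r1 - r * r2) * r3 = 2 * r := by
      linear_combination r * hr - r1 * hc
    have g3 : (p * r4 - q * r3) * r2 + 7 * b * r4 = 2 * q := by
      linear_combination q * hr - r4 * hb
    have g4 : 7 * c * r2 + (s * r1 - r * r2) * r4 = 2 * s := by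
      linear_combination s * hr - r2 * hc
    rw [g1, g2, g3, g4, h0, sub_self, h.hom 2 p r two_ne_zero hpr,
      h.hom 2 q s two_ne_zero hqs] at e
    exact sub_eq_zero.1 e

private theorem main {F : ℤ → ℤ → ℂ} (h : Inv F) {κ : ℂ} (k0 : F 1 0 = κ) (b0 : F 0 1 = κ)
    (k1 : F 1 1 = κ) (k2 : F 2 1 = κ) (k3 : F 3 1 = κ) (hfar : StFar) : EqC F 0 := by
  -- homogeneity
  have hs : ∀ (k x y : ℤ), k ≠ 0 → (x ≠ 0 ∨ y ≠ 0) → F (k * x) (k * y) = F x y := h.hom
  have st : ∀ x y : ℤ, (x ≠ 0 ∨ y ≠ 0) → F (-x) y = F x y := by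
    intro x y hv
    have e := h.st x y 1 0 hv (by norm_num)
    have e0 := hs (-1) 1 0 (by norm_num) (by norm_num)
    norm_num at e0
    rw [e0] at e
    linear_combination e
  have sw : ∀ x y : ℤ, (x ≠ 0 ∨ y ≠ 0) → F (-y) (2 * x) - κ = -(F x y - κ) := by
    intro x y hv
    have e := h.sw x y 1 0 hv (by norm_num)
    have e2 := hs 2 0 1 (by norm_num) (by norm_num)
    norm_num at e e2
    rw [e2, k0, b0] at e
    linear_combination e
  have cl : ∀ x y : ℤ, (x ≠ 0 ∨ y ≠ 0) → F x y = κ → ∀ k X Y : ℤ, k ≠ 0 →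
      ((X = k * x ∧ Y = k * y) ∨ (X = -(k * x) ∧ Y = k * y)) → F X Y = κ := by
    rintro x y hv hx k X Y hk (⟨rfl, rfl⟩ | ⟨rfl, rfl⟩)
    · rw [hs k x y hk hv, hx]
    · have e : -(k * x) = k * (-x) := by ring
      rw [e, hs k (-x) y hk (by rcases hv with h | h; exacts [Or.inl (neg_ne_zero.2 h), Or.inr h]),
        st x y hv, hx]
  -- values by the involution
  have wv : ∀ x y : ℤ, (x ≠ 0 ∨ y ≠ 0) → F x y = κ → F (-y) (2 * x) = κ := by
    intro x y hv hx
    have e := sw x y hv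
    rw [hx, sub_self, neg_zero] at e
    exact sub_eq_zero.1 e
  have h12 : F 1 2 = κ := cl (-1) 2 (by norm_num) (wv 1 1 (by norm_num) k1) 1 _ _ (by norm_num) (by decide)
  have h14 : F 1 4 = κ := cl (-1) 4 (by norm_num) (wv 2 1 (by norm_num) k2) 1 _ _ (by norm_num) (by decide)
  have h16 : F 1 6 = κ := cl (-1) 6 (by norm_num) (wv 3 1 (by norm_num) k3) 1 _ _ (by norm_num) (by decide)
  -- four thirds
  have mt1 : HTy (-6) (7 * 1) (7 * (-2)) 16 := Or.inr (by decide)
  have e43 : F 3 8 = F 4 3 := by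
    have m1 := h.gam (-6) 1 (-2) 16 mt1 4 3 1 1 (by norm_num) (by norm_num)
    have s1 := hs (-1) 3 8 (by norm_num) (by norm_num)
    norm_num at m1 s1
    rw [s1, h12, k1] at m1
    linear_combination m1
  have h43 : F 4 3 = κ := by
    have m2 := sw 4 3 (by norm_num)
    have m3 := st 3 8 (by norm_num)
    norm_num at m2 m3
    linear_combination (m2 - m3 - e43) / 2
  have h38 : F 3 8 = κ := e43.trans h43
  -- three halves and one third
  have mt2 : HTy (-4) (7 * 1) (7 * (-2)) 24 := Or.inr (by decide)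
  have e32 : F 1 3 = F 3 2 := by
    have m1 := h.gam (-4) 1 (-2) 24 mt2 3 2 2 1 (by norm_num) (by norm_num)
    have s1 := hs 2 1 3 (by norm_num) (by norm_num)
    have s2 := hs (-1) 1 4 (by norm_num) (by norm_num)
    norm_num at m1 s1 s2
    rw [s1, s2, h14, k2] at m1
    linear_combination m1
  have h32 : F 3 2 = κ := by
    have m2 := sw 3 2 (by norm_num)
    have s1 := hs 2 (-1) 3 (by norm_num) (by norm_num)
    have m3 := st 1 3 (by norm_num)
    norm_num at m2 s1 m3
    rw [s1] at m2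
    linear_combination (m2 - m3 - e32) / 2
  have h13 : F 1 3 = κ := e32.trans h32
  -- three quarters and two thirds
  have mt3 : HTy (-10) (7 * 1) (7 * 2) (-10) := Or.inr (by decide)
  have e34 : F (-3) 4 = F 2 (-3) := by
    have m1 := h.gam (-10) 1 2 (-10) mt3 1 1 1 2 (by norm_num) (by norm_num)
    have s1 := hs 2 2 (-3) (by norm_num) (by norm_num)
    norm_num at m1 s1
    rw [s1, k1, h12, sub_self] at m1
    exact sub_eq_zero.1 m1
  have h34 : F 3 4 = κ := by
    have m2 := sw 3 4 (by norm_num)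
    have s1 := hs 2 (-2) 3 (by norm_num) (by norm_num)
    have s2 := hs (-1) (-2) 3 (by norm_num) (by norm_num)
    have m3 := st 3 4 (by norm_num)
    norm_num at m2 s1 s2 m3
    rw [s1] at m2
    linear_combination (m2 - m3 + e34 + s2) / 2
  have h23 : F 2 3 = κ := by
    have m3 := st 3 4 (by norm_num)
    have s2 := hs (-1) (-2) 3 (by norm_num) (by norm_num)
    have m4 := st 2 3 (by norm_num)
    norm_num at m3 s2 m4
    linear_combination h34 + m3 - e34 - s2 - m4
  -- five halves and one fifth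
  have mt4 : HTy 5 (7 * (-2)) (7 * 2) (-39) := Or.inl (by decide)
  have h52 : F 5 2 = κ := by
    have m1 := h.gam 5 (-2) 2 (-39) mt4 3 1 5 2 (by norm_num) (by norm_num)
    have s1 := hs (-1) 3 8 (by norm_num) (by norm_num)
    norm_num at m1 s1
    rw [s1, h13, h38, k3, sub_self] at m1
    exact (sub_eq_zero.1 m1.symm).symm
  have h15 : F 1 5 = κ := cl (-2) 10 (by norm_num) (wv 5 2 (by norm_num) h52) 1 (-2) 10
    (by norm_num) (by decide) ▸ (by
      have := hs (-2) 1 (-5) (by norm_num) (by norm_num)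
      have m4 := hs (-1) 1 (-5) (by norm_num) (by norm_num)
      have m5 := st 1 5 (by norm_num)
      norm_num at this m4 m5
      rw [this, ← m4, m5])
  refine far2 hfar F h.hom fun p q r s hd hpar => ?_
  have hL : ∀ t ∈ L1 ++ L2, HTy t.1 t.2.1 t.2.2.1 t.2.2.2 ∧ F t.1 t.2.2.1 = κ ∧
      F t.2.1 t.2.2.2 = κ := by
    intro t ht
    simp only [L1, L2, List.cons_append, List.nil_append, List.mem_cons, List.not_mem_nil,
      or_false] at ht
    rcases ht with rfl | rfl | rfl | rfl | rfl | rfl | rfl | rfl | rfl | rfl | rfl | rfl | rfl |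
      rfl | rfl | rfl | rfl | rfl | rfl | rfl | rfl | rfl | rfl | rfl | rfl | rfl | rfl | rfl |
      rfl | rfl | rfl | rfl | rfl | rfl | rfl | rfl | rfl | rfl | rfl | rfl | rfl | rfl | rfl |
      rfl | rfl | rfl | rfl | rfl | rfl | rfl | rfl | rfl | rfl | rfl | rfl | rfl
    · exact ⟨Or.inl (by decide), cl 5 2 (by decide) h52 (1) _ _ (by decide) (by decide),
        cl 2 1 (by decide) k2 (1) _ _ (by decide) (by decide)⟩
    · exact ⟨Or.inl (by decide), cl 5 2 (by decide) h52 (1) _ _ (by decide) (by decide),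
        cl 3 1 (by decide) k3 (-1) _ _ (by decide) (by decide)⟩
    · exact ⟨Or.inl (by decide), cl 5 2 (by decide) h52 (1) _ _ (by decide) (by decide),
        cl 3 1 (by decide) k3 (1) _ _ (by decide) (by decide)⟩
    · exact ⟨Or.inl (by decide), cl 5 2 (by decide) h52 (1) _ _ (by decide) (by decide),
        cl 2 1 (by decide) k2 (-1) _ _ (by decide) (by decide)⟩
    · exact ⟨Or.inl (by decide), cl 3 2 (by decide) h32 (1) _ _ (by decide) (by decide),
        cl 2 1 (by decide) k2 (1) _ _ (by decide) (by decide)⟩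
    · exact ⟨Or.inl (by decide), cl 3 2 (by decide) h32 (1) _ _ (by decide) (by decide),
        cl 1 1 (by decide) k1 (-1) _ _ (by decide) (by decide)⟩
    · exact ⟨Or.inl (by decide), cl 1 2 (by decide) h12 (1) _ _ (by decide) (by decide),
        cl 2 3 (by decide) h23 (-1) _ _ (by decide) (by decide)⟩
    · exact ⟨Or.inl (by decide), cl 3 4 (by decide) h34 (1) _ _ (by decide) (by decide),
        cl 2 3 (by decide) h23 (-1) _ _ (by decide) (by decide)⟩
    · exact ⟨Or.inl (by decide), cl 1 2 (by decide) h12 (1) _ _ (by decide) (by decide),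
        cl 2 3 (by decide) h23 (1) _ _ (by decide) (by decide)⟩
    · exact ⟨Or.inl (by decide), cl 1 2 (by decide) h12 (1) _ _ (by decide) (by decide),
        cl 1 1 (by decide) k1 (1) _ _ (by decide) (by decide)⟩
    · exact ⟨Or.inl (by decide), cl 1 2 (by decide) h12 (1) _ _ (by decide) (by decide),
        cl 0 1 (by decide) b0 (-1) _ _ (by decide) (by decide)⟩
    · exact ⟨Or.inl (by decide), cl 1 2 (by decide) h12 (1) _ _ (by decide) (by decide),
        cl 1 3 (by decide) h13 (-1) _ _ (by decide) (by decide)⟩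
    · exact ⟨Or.inl (by decide), cl 1 4 (by decide) h14 (1) _ _ (by decide) (by decide),
        cl 1 3 (by decide) h13 (1) _ _ (by decide) (by decide)⟩
    · exact ⟨Or.inl (by decide), cl 1 4 (by decide) h14 (1) _ _ (by decide) (by decide),
        cl 0 1 (by decide) b0 (-1) _ _ (by decide) (by decide)⟩
    · exact ⟨Or.inl (by decide), cl 1 6 (by decide) h16 (1) _ _ (by decide) (by decide),
        cl 1 5 (by decide) h15 (1) _ _ (by decide) (by decide)⟩
    · exact ⟨Or.inl (by decide), cl 1 6 (by decide) h16 (1) _ _ (by decide) (by decide),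
        cl 0 1 (by decide) b0 (-1) _ _ (by decide) (by decide)⟩
    · exact ⟨Or.inl (by decide), cl 1 6 (by decide) h16 (1) _ _ (by decide) (by decide),
        cl 0 1 (by decide) b0 (1) _ _ (by decide) (by decide)⟩
    · exact ⟨Or.inl (by decide), cl 1 6 (by decide) h16 (1) _ _ (by decide) (by decide),
        cl 1 5 (by decide) h15 (-1) _ _ (by decide) (by decide)⟩
    · exact ⟨Or.inl (by decide), cl 1 4 (by decide) h14 (1) _ _ (by decide) (by decide),
        cl 0 1 (by decide) b0 (1) _ _ (by decide) (by decide)⟩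
    · exact ⟨Or.inl (by decide), cl 1 0 (by decide) k0 (1) _ _ (by decide) (by decide),
        cl 3 1 (by decide) k3 (1) _ _ (by decide) (by decide)⟩
    · exact ⟨Or.inl (by decide), cl 1 0 (by decide) k0 (1) _ _ (by decide) (by decide),
        cl 2 1 (by decide) k2 (1) _ _ (by decide) (by decide)⟩
    · exact ⟨Or.inl (by decide), cl 1 0 (by decide) k0 (1) _ _ (by decide) (by decide),
        cl 1 1 (by decide) k1 (1) _ _ (by decide) (by decide)⟩
    · exact ⟨Or.inl (by decide), cl 1 0 (by decide) k0 (1) _ _ (by decide) (by decide),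
        cl 0 1 (by decide) b0 (1) _ _ (by decide) (by decide)⟩
    · exact ⟨Or.inl (by decide), cl 1 0 (by decide) k0 (1) _ _ (by decide) (by decide),
        cl 1 1 (by decide) k1 (1) _ _ (by decide) (by decide)⟩
    · exact ⟨Or.inl (by decide), cl 1 0 (by decide) k0 (1) _ _ (by decide) (by decide),
        cl 2 1 (by decide) k2 (1) _ _ (by decide) (by decide)⟩
    · exact ⟨Or.inl (by decide), cl 1 0 (by decide) k0 (1) _ _ (by decide) (by decide),
        cl 3 1 (by decide) k3 (1) _ _ (by decide) (by decide)⟩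
    · exact ⟨Or.inl (by decide), cl 1 2 (by decide) h12 (1) _ _ (by decide) (by decide),
        cl 1 1 (by decide) k1 (-1) _ _ (by decide) (by decide)⟩
    · exact ⟨Or.inl (by decide), cl 1 2 (by decide) h12 (1) _ _ (by decide) (by decide),
        cl 0 1 (by decide) b0 (1) _ _ (by decide) (by decide)⟩
    · exact ⟨Or.inl (by decide), cl 1 2 (by decide) h12 (1) _ _ (by decide) (by decide),
        cl 1 3 (by decide) h13 (1) _ _ (by decide) (by decide)⟩
    · exact ⟨Or.inl (by decide), cl 1 4 (by decide) h14 (1) _ _ (by decide) (by decide),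
        cl 1 3 (by decide) h13 (-1) _ _ (by decide) (by decide)⟩
    · exact ⟨Or.inl (by decide), cl 3 2 (by decide) h32 (1) _ _ (by decide) (by decide),
        cl 2 1 (by decide) k2 (-1) _ _ (by decide) (by decide)⟩
    · exact ⟨Or.inl (by decide), cl 3 2 (by decide) h32 (1) _ _ (by decide) (by decide),
        cl 1 1 (by decide) k1 (1) _ _ (by decide) (by decide)⟩
    · exact ⟨Or.inl (by decide), cl 3 4 (by decide) h34 (1) _ _ (by decide) (by decide),
        cl 2 3 (by decide) h23 (1) _ _ (by decide) (by decide)⟩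
    · exact ⟨Or.inr (by decide), cl 2 1 (by decide) k2 (2) _ _ (by decide) (by decide),
        cl 1 0 (by decide) k0 (-1) _ _ (by decide) (by decide)⟩
    · exact ⟨Or.inr (by decide), cl 2 1 (by decide) k2 (2) _ _ (by decide) (by decide),
        cl 5 2 (by decide) h52 (-1) _ _ (by decide) (by decide)⟩
    · exact ⟨Or.inr (by decide), cl 3 1 (by decide) k3 (2) _ _ (by decide) (by decide),
        cl 5 2 (by decide) h52 (1) _ _ (by decide) (by decide)⟩
    · exact ⟨Or.inr (by decide), cl 3 1 (by decide) k3 (2) _ _ (by decide) (by decide),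
        cl 1 0 (by decide) k0 (-1) _ _ (by decide) (by decide)⟩
    · exact ⟨Or.inr (by decide), cl 3 1 (by decide) k3 (2) _ _ (by decide) (by decide),
        cl 1 0 (by decide) k0 (-1) _ _ (by decide) (by decide)⟩
    · exact ⟨Or.inr (by decide), cl 3 1 (by decide) k3 (2) _ _ (by decide) (by decide),
        cl 5 2 (by decide) h52 (-1) _ _ (by decide) (by decide)⟩
    · exact ⟨Or.inr (by decide), cl 2 1 (by decide) k2 (2) _ _ (by decide) (by decide),
        cl 5 2 (by decide) h52 (1) _ _ (by decide) (by decide)⟩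
    · exact ⟨Or.inr (by decide), cl 2 1 (by decide) k2 (2) _ _ (by decide) (by decide),
        cl 1 0 (by decide) k0 (-1) _ _ (by decide) (by decide)⟩
    · exact ⟨Or.inr (by decide), cl 1 1 (by decide) k1 (2) _ _ (by decide) (by decide),
        cl 3 2 (by decide) h32 (1) _ _ (by decide) (by decide)⟩
    · exact ⟨Or.inr (by decide), cl 1 1 (by decide) k1 (2) _ _ (by decide) (by decide),
        cl 1 0 (by decide) k0 (-1) _ _ (by decide) (by decide)⟩
    · exact ⟨Or.inr (by decide), cl 1 3 (by decide) h13 (2) _ _ (by decide) (by decide),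
        cl 1 2 (by decide) h12 (1) _ _ (by decide) (by decide)⟩
    · exact ⟨Or.inr (by decide), cl 1 5 (by decide) h15 (2) _ _ (by decide) (by decide),
        cl 1 6 (by decide) h16 (-1) _ _ (by decide) (by decide)⟩
    · exact ⟨Or.inr (by decide), cl 0 1 (by decide) b0 (2) _ _ (by decide) (by decide),
        cl 1 4 (by decide) h14 (1) _ _ (by decide) (by decide)⟩
    · exact ⟨Or.inr (by decide), cl 0 1 (by decide) b0 (2) _ _ (by decide) (by decide),
        cl 1 6 (by decide) h16 (1) _ _ (by decide) (by decide)⟩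
    · exact ⟨Or.inr (by decide), cl 0 1 (by decide) b0 (2) _ _ (by decide) (by decide),
        cl 1 6 (by decide) h16 (-1) _ _ (by decide) (by decide)⟩
    · exact ⟨Or.inr (by decide), cl 0 1 (by decide) b0 (2) _ _ (by decide) (by decide),
        cl 1 4 (by decide) h14 (-1) _ _ (by decide) (by decide)⟩
    · exact ⟨Or.inr (by decide), cl 0 1 (by decide) b0 (2) _ _ (by decide) (by decide),
        cl 1 2 (by decide) h12 (-1) _ _ (by decide) (by decide)⟩
    · exact ⟨Or.inr (by decide), cl 0 1 (by decide) b0 (2) _ _ (by decide) (by decide),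
        cl 1 0 (by decide) k0 (-1) _ _ (by decide) (by decide)⟩
    · exact ⟨Or.inr (by decide), cl 0 1 (by decide) b0 (2) _ _ (by decide) (by decide),
        cl 1 2 (by decide) h12 (1) _ _ (by decide) (by decide)⟩
    · exact ⟨Or.inr (by decide), cl 1 1 (by decide) k1 (2) _ _ (by decide) (by decide),
        cl 3 2 (by decide) h32 (-1) _ _ (by decide) (by decide)⟩
    · exact ⟨Or.inr (by decide), cl 1 1 (by decide) k1 (2) _ _ (by decide) (by decide),
        cl 1 0 (by decide) k0 (-1) _ _ (by decide) (by decide)⟩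
    · exact ⟨Or.inr (by decide), cl 1 3 (by decide) h13 (2) _ _ (by decide) (by decide),
        cl 1 2 (by decide) h12 (-1) _ _ (by decide) (by decide)⟩
    · exact ⟨Or.inr (by decide), cl 1 5 (by decide) h15 (2) _ _ (by decide) (by decide),
        cl 1 6 (by decide) h16 (1) _ _ (by decide) (by decide)⟩
  have hc : (p : ZMod 7) * s - q * r = 1 := by
    have h' := congrArg (Int.cast : ℤ → ZMod 7) hd
    push_cast at h'
    exact h'
  obtain ⟨t, htL, e1, e2⟩ := cls _ _ _ _ hc
  obtain ⟨f1, f2, f3⟩ := hL t htL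
  exact one h f1 (f2.trans f3.symm) hd hpar (dvd7.2 (by push_cast; exact e1))
    (dvd7.2 (by push_cast; exact e2))

private theorem five {x y : ℤ} (h : x ≠ 0 ∨ y ≠ 0) : x ≠ 0 ∨ 7 * y ≠ 0 := by
  rcases h with h | h
  · exact Or.inl h
  · exact Or.inr (by omega)

/-- BS for `p = 7`. -/
theorem hBs7 (hfar : StFar) : BsH7 := by
  intro K hS hW hst h0 h1 h2 h3
  obtain ⟨hH, hG⟩ := hS
  obtain ⟨F, hF⟩ : ∃ F : ℤ → ℤ → ℂ, ∀ x y, F x y = K x (7 * y) := ⟨fun x y => K x (7 * y),
    fun _ _ => rfl⟩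
  have hI : Inv F := by
    refine ⟨?_, ?_, ?_, ?_⟩
    · intro k p q hk hpq
      rw [hF, hF]
      have := hH k p (7 * q) hk (five hpq)
      rw [← this]
      congr 1; ring
    · intro a b c d hd x y z w hv hw
      have hT : HTy a b (49 * c) d := by
        rcases hd with ⟨h1, h2⟩ | ⟨h1, h2, h3, h4⟩
        · exact Or.inl ⟨by linear_combination h1, by omega⟩
        · exact Or.inr ⟨by linear_combination h1, h2, by omega, h4⟩
      have e := (hG a b (49 * c) d hT (by simp) ⟨c, by norm_num⟩).diff (five hv) (five hw)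
      simp only [act] at e
      rw [hF, hF, hF, hF, ← e]
      congr 2 <;> ring
    · intro x y z w hv hw
      have e := hst.diff (five hv) (five hw)
      simp only [act] at e
      rw [hF, hF, hF, hF, ← e]
      congr 2 <;> ring
    · intro x y z w hv hw
      have e := hW.diff (five hv) (five hw)
      simp only [act, Pi.neg_apply] at e
      have q1 : ∀ x y : ℤ, (x ≠ 0 ∨ y ≠ 0) →
          K (0 * x + -1 * (7 * y)) (2 * (7 : ℤ) ^ 2 * x + 0 * (7 * y)) = F (-y) (2 * x) := by
        intro x y hv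
        rw [hF]
        have := hH 7 (-y) (7 * (2 * x)) (by norm_num) (by omega)
        rw [← this]
        congr 1 <;> ring
      rw [q1 x y hv, q1 z w hw] at e
      rw [e, hF, hF]
      ring
  have hc : EqC F 0 := by
    refine main hI (κ := K 1 0) ?_ ?_ ?_ ?_ ?_ hfar
    · rw [hF]; norm_num
    · rw [hF, ← h0]
      have := hH 7 0 1 (by norm_num) (by norm_num)
      norm_num at this ⊢
      exact this
    · rw [hF, ← h1]; norm_num
    · rw [hF, ← h2]; norm_num
    · rw [hF, ← h3]; norm_num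
  obtain ⟨c, hc⟩ := hc
  refine ⟨c, fun p q hpq => ?_⟩
  have e1 := hc (7 * p) q (by omega)
  rw [hF] at e1
  have e2 := hH 7 p q (by norm_num) hpq
  rw [← e2, e1]
  simp

end Pool.Agent.Helper93.TLH
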