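import Pool.Agent.Helper93.TLH.Asm
import Pool.Agent.Helper93.TLH.M_Bs7
import Pool.Agent.Helper93.TLH.M_Core71
import Pool.Agent.Helper73.TLH.M_B3bG
import Pool.Agent.Helper36.TLH.M_Core2G

/-!
# Project TH: the cores for levels `2·7^n` from the upper and the lower bound
-/

set_option autoImplicit false

namespace Pool.Agent.Helper93.TLH

open Pool.Agent.Helper14.CV (G0 RootOne Lan EqC act)
open Pool.Agent.Helper28.TL (IsNewN)
open Pool.Agent.Helper28.TH (ALPlus finalHN finalHS)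

/-- The four coordinates at level `98`. -/
def a7H : (ℤ → ℤ → ℂ) →ₗ[ℂ] (Fin 4 → ℂ) where
  toFun K := ![K 0 1 - K 1 0, K 1 7 - K 1 0, K 2 7 - K 1 0, K 3 7 - K 1 0]
  map_add' K L := by
    funext i
    fin_cases i <;> simp <;> ring
  map_smul' s K := by
    funext i
    fin_cases i <;> simp <;> ring

theorem bsG7 : BsG 7 4 a7H := by
  intro K hS hW hst ha
  have e0 := congrFun ha 0
  have e1 := congrFun ha 1
  have e2 := congrFun ha 2
  have e3 := congrFun ha 3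
  simp only [a7H, LinearMap.coe_mk, AddHom.coe_mk, Matrix.cons_val_zero, Matrix.cons_val_one,
    Matrix.cons_val, Pi.zero_apply] at e0 e1 e2 e3
  exact hBs7 Pool.Agent.Helper38.CV.hFar K hS (by rwa [Nat.cast_ofNat] at hW) hst (sub_eq_zero.1 e0)
    (sub_eq_zero.1 e1) (sub_eq_zero.1 e2) (sub_eq_zero.1 e3)

theorem b3b7H : B3bH 7 4 :=
  Pool.Agent.Helper73.TLH.hB3bG 7 4 a7H (by norm_num) (by norm_num) avgH evH bsG7

/-- The core for levels `2·7^n`, `n ≥ 3`. -/
theorem core7H (dd : ℕ → ℕ) (ub : UBH 7 dd) (lb : LBH 7 4 dd) : CoreH 7 :=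
  Pool.Agent.Helper66.TLH.hCoreOf b3aH 7 4 dd (by norm_num) (by norm_num) b3b7H ub lb

theorem core72H (dd : ℕ → ℕ) (lb : LBH 7 4 dd) : CoreV 7 2 :=
  Pool.Agent.Helper36.TLH.hCore2G 7 4 a7H (by norm_num) (by norm_num) dd avgH evH bsG7 lb

theorem core71H : CoreV 7 1 := hCore71 Pool.Agent.Helper38.CV.hFar

/-- Levels `2·7^n`. -/
theorem lvalH7 (dd : ℕ → ℕ) (ub : UBH 7 dd) (lb : LBH 7 4 dd) (n : ℕ)
    [NeZero (2 * 7 ^ n)] (f : CuspForm (G0 (2 * 7 ^ n)) 2)
    (hf : IsNewN f) (hal : ALPlus 2 (7 ^ n) f) (hR : RootOne f) : Lan f (1 / 2) ≠ 0 := by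
  rcases (by omega : n = 0 ∨ n = 1 ∨ n = 2 ∨ 3 ≤ n) with rfl | rfl | rfl | hn
  · exact finalHS 7 0 (by norm_num) (by norm_num) (core0H 7) f hf hal hR
  · exact finalHS 7 1 (by norm_num) (by norm_num) core71H f hf hal hR
  · exact finalHS 7 2 (by norm_num) (by norm_num) (core72H dd lb) f hf hal hR
  · exact finalHN 7 n (by norm_num) (by norm_num) (by omega)
      (fun G h ev => core7H dd ub lb n G hn h ev) f hf hal hR

end Pool.Agent.Helper93.TLH
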