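import Pool.Agent.Helper93.TLE.Defs

/-!
# Project TH (levels `2 p^n`, `p` odd, Atkin–Lehner sign at `2` equal to `+1`): symbols

A newform `f` of weight two and level `2 p^n` with `f | W_2 = f` gives a potential `G` (variable `z`) with `G∘γ ≈ G` for `γ` in `Γ₀(2 p^n)` and for the integral matrices
`(2a b; 2 p^n c 2d)` of determinant two.
-/

set_option autoImplicit false

namespace Pool.Agent.Helper93.TLH

open Pool.Agent.Helper14.CV (Homog EqC act Tl)
open Pool.Agent.Helper28.WK (Tw evw)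
open Pool.Agent.Helper4.TL (OkE)

/-- Integral matrices `(a b; c d)` of determinant one with `c` even, or of determinant two with `a`, `c`, `d` even. -/
def HTy (a b c d : ℤ) : Prop :=
  (a * d - b * c = 1 ∧ (2 : ℤ) ∣ c) ∨
    (a * d - b * c = 2 ∧ (2 : ℤ) ∣ a ∧ (2 : ℤ) ∣ c ∧ (2 : ℤ) ∣ d)

theorem HTy.det_ne {a b c d : ℤ} (h : HTy a b c d) : a * d - b * c ≠ 0 := by
  rcases h with h | h
  · rw [h.1]; exact one_ne_zero
  · rw [h.1]; exact two_ne_zero

section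

variable {R : Type} [AddCommGroup R]

/-- Potentials of symbols for the group of all matrices `HTy a b c d` with `p^r ∣ b`, `p^s ∣ c`. -/
def SymH (p r s : ℕ) (G : ℤ → ℤ → R) : Prop :=
  Homog G ∧ ∀ a b c d : ℤ, HTy a b c d → (p : ℤ) ^ r ∣ b → (p : ℤ) ^ s ∣ c → EqC (act a b c d G) G

theorem SymH.add {p r s : ℕ} {G H : ℤ → ℤ → R} (h : SymH p r s G) (h' : SymH p r s H) :
    SymH p r s (G + H) :=
  ⟨h.1.add h'.1, fun a b c d hd hb hc => (h.2 a b c d hd hb hc).add (h'.2 a b c d hd hb hc)⟩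

theorem SymH.neg {p r s : ℕ} {G : ℤ → ℤ → R} (h : SymH p r s G) : SymH p r s (-G) :=
  ⟨h.1.neg, fun a b c d hd hb hc => (h.2 a b c d hd hb hc).neg⟩

theorem SymH.smul {S : Type} [Monoid S] [DistribMulAction S R] (x : S) {p r s : ℕ}
    {G : ℤ → ℤ → R} (h : SymH p r s G) : SymH p r s (x • G) :=
  ⟨h.1.smul x, fun a b c d hd hb hc => (h.2 a b c d hd hb hc).smul x⟩

theorem SymH.zero (p r s : ℕ) : SymH p r s (0 : ℤ → ℤ → R) :=
  ⟨fun _ _ _ _ _ => rfl, fun _ _ _ _ _ _ _ => Pool.Agent.Helper14.CV.EqC.refl _⟩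

/-- Scalar multiples of elements of the group. -/
theorem SymH.mem {p r s : ℕ} {G : ℤ → ℤ → R} (h : SymH p r s G) (k a b c d : ℤ) (hk : k ≠ 0)
    (hd : HTy a b c d) (hb : (p : ℤ) ^ r ∣ b) (hc : (p : ℤ) ^ s ∣ c) :
    EqC (act (k * a) (k * b) (k * c) (k * d) G) G :=
  (h.1.scale k hk hd.det_ne).trans (h.2 a b c d hd hb hc)

/-- A symbol composed with a matrix `(x y; z w)` of nonzero determinant which normalises the group is a symbol. -/
theorem SymH.act {p r s r' s' : ℕ} {G : ℤ → ℤ → R} (h : SymH p r s G) {x y z w : ℤ}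
    (hdet : x * w - y * z ≠ 0)
    (hn : ∀ a b c d : ℤ, HTy a b c d → (p : ℤ) ^ r' ∣ b → (p : ℤ) ^ s' ∣ c →
      ∃ a' b' c' d' : ℤ, HTy a' b' c' d' ∧ (p : ℤ) ^ r ∣ b' ∧ (p : ℤ) ^ s ∣ c' ∧
        x * a + y * c = a' * x + b' * z ∧ x * b + y * d = a' * y + b' * w ∧
        z * a + w * c = c' * x + d' * z ∧ z * b + w * d = c' * y + d' * w) :
    SymH p r' s' (act x y z w G) := by
  refine ⟨h.1.act hdet, fun a b c d hd hb hc => ?_⟩
  obtain ⟨a', b', c', d', hd', hb', hc', e1, e2, e3, e4⟩ := hn a b c d hd hb hc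
  rw [Pool.Agent.Helper14.CV.act_act, e1, e2, e3, e4, ← Pool.Agent.Helper14.CV.act_act]
  exact (h.2 a' b' c' d' hd' hb' hc').act hdet

end

/-- The sum over the translations by `i/p`. -/
def tSH (p : ℕ) (G : ℤ → ℤ → ℂ) : ℤ → ℤ → ℂ := ∑ i ∈ Finset.range p, act p i 0 p G

/-- The sum over the lower translations `(1 0; 2 i p^(n-1) 1)`. -/
def sSH (p n : ℕ) (G : ℤ → ℤ → ℂ) : ℤ → ℤ → ℂ :=
  ∑ i ∈ Finset.range p, act 1 0 (2 * i * (p : ℤ) ^ (n - 1)) 1 G

/-- New symbols of level `2 p^n` with `W = -1` and `* = +1`. -/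
def NewSymH (p n : ℕ) (G : ℤ → ℤ → ℂ) : Prop :=
  SymH p 0 n G ∧ EqC (tSH p G) 0 ∧ EqC (sSH p n G) 0 ∧
    EqC (act 0 (-1) (2 * (p : ℤ) ^ n) 0 G) (-G) ∧ EqC (act (-1) 0 0 1 G) G

open Classical in
/-- The values at all words in the `T_l`, `l ≠ 2, p` prime (`Tl l 1`), as a linear map. -/
noncomputable def evLH (p : ℕ) : (ℤ → ℤ → ℂ) →ₗ[ℂ] (List ℕ → ℂ) where
  toFun G ls := if OkE p ls then evw 1 ls G else 0
  map_add' G H := by
    funext ls
    simp only [Pi.add_apply]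
    split_ifs
    · simp only [evw, Pool.Agent.Helper14.W5.Tw_add, Pi.add_apply]; abel
    · simp
  map_smul' s G := by
    funext ls
    simp only [Pi.smul_apply, RingHom.id_apply]
    split_ifs
    · simp only [evw, Pool.Agent.Helper14.W5.Tw_smul, Pi.smul_apply, smul_sub]
    · simp

theorem tSH_add (p : ℕ) (G H : ℤ → ℤ → ℂ) : tSH p (G + H) = tSH p G + tSH p H := by
  unfold tSH
  rw [← Finset.sum_add_distrib]
  exact Finset.sum_congr rfl fun i _ => rfl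

theorem sSH_add (p n : ℕ) (G H : ℤ → ℤ → ℂ) : sSH p n (G + H) = sSH p n G + sSH p n H := by
  unfold sSH
  rw [← Finset.sum_add_distrib]
  exact Finset.sum_congr rfl fun i _ => rfl

theorem tSH_smul (p : ℕ) (s : ℂ) (G : ℤ → ℤ → ℂ) : tSH p (s • G) = s • tSH p G := by
  unfold tSH
  rw [Finset.smul_sum]
  exact Finset.sum_congr rfl fun i _ => rfl

theorem sSH_smul (p n : ℕ) (s : ℂ) (G : ℤ → ℤ → ℂ) : sSH p n (s • G) = s • sSH p n G := by
  unfold sSH
  rw [Finset.smul_sum]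
  exact Finset.sum_congr rfl fun i _ => rfl

theorem NewSymH.add {p n : ℕ} {G H : ℤ → ℤ → ℂ} (h : NewSymH p n G) (h' : NewSymH p n H) :
    NewSymH p n (G + H) := by
  obtain ⟨a1, a2, a3, a4, a5⟩ := h
  obtain ⟨b1, b2, b3, b4, b5⟩ := h'
  refine ⟨SymH.add a1 b1, ?_, ?_, ?_, a5.add b5⟩
  · rw [tSH_add]; have := a2.add b2; rwa [add_zero] at this
  · rw [sSH_add]; have := a3.add b3; rwa [add_zero] at this
  · rw [neg_add]; exact a4.add b4

theorem NewSymH.smul {p n : ℕ} (s : ℂ) {G : ℤ → ℤ → ℂ} (h : NewSymH p n G) :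
    NewSymH p n (s • G) := by
  obtain ⟨a1, a2, a3, a4, a5⟩ := h
  refine ⟨SymH.smul s a1, ?_, ?_, ?_, a5.smul s⟩
  · rw [tSH_smul]; have := a2.smul s; rwa [smul_zero] at this
  · rw [sSH_smul]; have := a3.smul s; rwa [smul_zero] at this
  · rw [← smul_neg]; exact a4.smul s

/-- New symbols of level `2 p^n` (`W = -1`, `* = +1`) as a subspace. -/
def NSH (p n : ℕ) : Submodule ℂ (ℤ → ℤ → ℂ) where
  carrier := {G | NewSymH p n G}
  add_mem' h h' := NewSymH.add h h'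
  zero_mem' := by
    refine ⟨SymH.zero p 0 n, ?_, ?_, ?_, Pool.Agent.Helper14.CV.EqC.refl _⟩
    · exact ⟨0, fun p q _ => by simp [tSH, Pool.Agent.Helper14.CV.act]⟩
    · exact ⟨0, fun p q _ => by simp [sSH, Pool.Agent.Helper14.CV.act]⟩
    · exact ⟨0, fun p q _ => by simp [Pool.Agent.Helper14.CV.act]⟩
  smul_mem' s _ h := NewSymH.smul s h

/-- Symbols of level `2 p^n` as a subspace. -/
def XSH (p n : ℕ) : Submodule ℂ (ℤ → ℤ → ℂ) where
  carrier := {G | SymH p 0 n G}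
  add_mem' h h' := SymH.add h h'
  zero_mem' := SymH.zero p 0 n
  smul_mem' s _ h := SymH.smul s h

/-- The dimension of the new symbols of level `2·5^n` (`W = -1`, `* = +1`), `n ≥ 3`. -/
def ddH5 (n : ℕ) : ℕ :=
  if n % 2 = 1 then 6 * 25 ^ (n / 2 - 1) + 2 * 5 ^ (n / 2 - 1) else 30 * 25 ^ (n / 2 - 2)

end Pool.Agent.Helper93.TLH
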