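import Pool.Agent.Helper93.TLH.Defs

/-!
# Project TH (levels `2 p^n`, `p` odd, `W_2 = +1`): Hecke operators and the dimension chain

Copies of the statements of `Helper93/TLE/StB.lean` (project TL, proved; modules `Pool/Agent/Helper*/TLE/M_*.lean`) for `SymH`: no signs, translations by all residues instead of the even ones, `T_l = Tl l 1`, `W = act 0 (-1) (2 p^n) 0`,
`* = act (-1) 0 0 1`; convention `act M (act M' G) = act (M' M) G`. The only new point are the matrices of determinant two (`HTy`, second case): `(2a b; 2p^n c 2d)`.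
-/

set_option autoImplicit false

namespace Pool.Agent.Helper93.TLH

open Pool.Agent.Helper14.CV (Homog EqC act Tl StFar StFex)
open Pool.Agent.Helper28.WK (Tw evw)
open Pool.Agent.Helper4.TL (OkE)
open Pool.Agent.Helper93.TLE (DDE)

/-- HK. Hecke sum over any system of representatives. Proof: `StN1` of CV (`Pool.Agent.Helper10.CV.hN1`) with `N = 2 p^n` gives `δ P = γ_P std (π P)`, `γ_P` in `Γ₀(2 p^n)` (case one of `HTy`), `std = (1 j; 0 l)` (`0 ≤ j < l`) or `(l 0; 0 1)`.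
Model: `Pool/Agent/Helper69/W5/M_PHk.lean` (with `N = p^n`; the same proof). -/
def SHHk : Prop := ∀ (p : ℕ), p.Prime → p ≠ 2 → ∀ (R : Type) (_ : AddCommGroup R) (n l : ℕ)
  (G : ℤ → ℤ → R), l.Prime → l ≠ p → l ≠ 2 → SymH p 0 n G →
  ∀ δ : Fin (l + 1) → Matrix (Fin 2) (Fin 2) ℤ,
  (∀ P, (δ P).det = l) → (∀ P, 2 * (p : ℤ) ^ n ∣ δ P 1 0) →
  (∀ P P', P ≠ P' → ¬ ∀ i j, (l : ℤ) ∣ (δ P * (δ P').adjugate) i j) →
  EqC (fun x y => ∑ P, G (δ P 0 0 * x + δ P 0 1 * y) (δ P 1 0 * x + δ P 1 1 * y)) (Tl l 1 G)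

/-- HKS (from HK). `T_l` preserves symbols. Proof. For `γ` of determinant one: HK for the family `std_P γ` (`std_P = (1 j; 0 l), (l 0; 0 1)`). For `γ = (2a b; 2p^n c 2d)` of determinant two: with `γ' = adj γ = (2d -b; -2p^n c 2a)` (again of type two) the
matrices `δ_P = (γ' std_P γ)/2` are integral (all entries of `γ' std_P γ` are even), of determinant `l`, the lower left entry is divisible by `2 p^n` (for `std = (1 j; 0 l)`: `p^n (-2c (a + j p^n c) + 2 a l c)`, in general the product of three matrices with lower left entry divisible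
by `2p^n` and even diagonal entries twice), and `δ_P adj(δ_P') = γ' (std_P adj(std_P')) γ /2 ...`: `2 δ_P adj(δ_P') = γ' std_P adj(std_P') adj(γ')`, pairwise inequivalent as `l` is odd. So `∑_P G(std_P γ v) ≈ ∑_P G(γ' std_P γ v)` (`G∘γ' ≈ G` at the vectors `std_P γ v`) `= ∑_P G(2 δ_P v) = ∑_P G(δ_P v) ≈ (T_l G)(v)`.
Model: `Pool/Agent/Helper68/TLE/M_HkS.lean` for the first part. -/
def SHHkS : Prop := ∀ (p : ℕ), p.Prime → p ≠ 2 → ∀ (R : Type) (_ : AddCommGroup R) (n : ℕ)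
  (G : ℤ → ℤ → R), SymH p 0 n G → ∀ l : ℕ, l.Prime → l ≠ p → l ≠ 2 → SymH p 0 n (Tl l 1 G)

/-- HKW (from HK). `T_l` commutes with `W` and with `*`: HK for the families `W std_P W⁻¹ = (l 0; -2jp^n 1), (1 0; 0 l)` and `* std_P * = (1 -j; 0 l), (l 0; 0 1)`. Model: `Pool/Agent/Helper25/TLE/M_HkW.lean`. -/
def SHHkW : Prop := ∀ (p : ℕ), p.Prime → p ≠ 2 → ∀ (R : Type) (_ : AddCommGroup R) (n : ℕ)
  (G : ℤ → ℤ → R), SymH p 0 n G → ∀ l : ℕ, l.Prime → l ≠ p → l ≠ 2 →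
    EqC (Tl l 1 (act 0 (-1) (2 * (p : ℤ) ^ n) 0 G)) (act 0 (-1) (2 * (p : ℤ) ^ n) 0 (Tl l 1 G)) ∧
    EqC (Tl l 1 (act (-1) 0 0 1 G)) (act (-1) 0 0 1 (Tl l 1 G))

/-- EV (from HKS, HKW). `W` exchanges the two ends of `{0, ∞}`: the values at words change sign; `*` fixes them (induction on the word; `EqC.Tl`, `Homog`). Model: `Pool/Agent/Helper9/TLE/M_Ev.lean`. -/
def SHEv : Prop := ∀ (p : ℕ), p.Prime → p ≠ 2 → ∀ (R : Type) (_ : AddCommGroup R) (n : ℕ)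
  (G : ℤ → ℤ → R), SymH p 0 n G → ∀ ls : List ℕ, OkE p ls →
  evw 1 ls (act 0 (-1) (2 * (p : ℤ) ^ n) 0 G) = -evw 1 ls G ∧ evw 1 ls (act (-1) 0 0 1 G) = evw 1 ls G

/-- AVG (`n ≥ 2`, `N = 2 p^n`, `M = 2 p^(n-1)`, `t_i = (p i; 0 p)`, `σ_i = (1 0; iM 1)`). (a) `tSH` preserves symbols of level `n`; (b) `sSH p n G` has level `n - 1`; (c) so has `act W (tSH p G)`; (d) `W` and `*` preserve symbols of level `n`.
Proof. For `γ = (a b; c d)` of type `HTy` with `p^n ∣ c`: `t_i γ = γ' t_i'` with `γ' = (a + ic/p, b + (i d - i' a)/p - i i' c/p²; c, d - i' c/p)`: integral for `i' ≡ i d/a` modulo `p` (`a` is prime to `p`) if `n ≥ 2`, of the same type as `γ` (`c/p` is even; the diagonal entries change by even numbers), a bijection `i ↦ i'` of the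
residues modulo `p` (reindex; `t_(i+p) = (1 1; 0 1) t_i`). (b): for `γ` of level `n - 1` (`p^(n-1) ∣ c`): `σ_i γ = γ' σ_i'`, `γ' = (a - i' M b, b; c + iMa - i'(M d + i M² b), d + iMb)`: lower left entry divisible by `p^n` for the right `i'` (`d` is prime to `p`), type kept (`M` is even). (c) `W t_i = (0 -p; Np, Ni) = p σ_(-i) W`, so `act W (tSH p G)` is
the sum over `σ` of the symbol `act W G`, up to constants. (d) `W γ = γ' W` with `γ' = (d -c/N; -N b a)` (type two: `c/N` any integer), `* γ * = (a -b; -c d)`.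
Model: `Pool/Agent/Helper42/TLE/M_Avg.lean`. -/
def SHAvg : Prop := ∀ (p : ℕ), p.Prime → p ≠ 2 → ∀ (n : ℕ) (G : ℤ → ℤ → ℂ), 2 ≤ n → SymH p 0 n G →
  SymH p 0 n (tSH p G) ∧ SymH p 0 (n - 1) (sSH p n G) ∧
  SymH p 0 (n - 1) (act 0 (-1) (2 * (p : ℤ) ^ n) 0 (tSH p G)) ∧
  SymH p 0 n (act 0 (-1) (2 * (p : ℤ) ^ n) 0 G) ∧ SymH p 0 n (act (-1) 0 0 1 G)

/-- MON. A symbol of level `m` is one of level `n`, `n ≥ m`. -/
def SHMon : Prop := ∀ (p : ℕ) (R : Type) (_ : AddCommGroup R) (m n : ℕ) (G : ℤ → ℤ → R), m ≤ n →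
  SymH p 0 m G → SymH p 0 n G

/-- COM (`n ≥ 3`). Relations up to constants, each from an identity of integral matrices up to a scalar and an element of `Γ₀(2p^n)` (type one of `HTy`) on the left: `t_i t_j` is `t_(i+j)` up to the scalar `p`, `t_(i+p) = (1 1; 0 1) t_i`, `σ_p` is in `Γ₀(2p^n)`, `t_i σ_j` and
`σ_j t_i` differ by an element of `Γ₀(2p^n)`; `W t_i` is `σ_(-i) W` and `W σ_i` is `t_(-i) W` up to scalars; `* t_i = t_(-i) *`, `* σ_i = σ_(-i) *`, `* W = - W *`; sums over all residues modulo `p` may be reindexed. Model: `Pool/Agent/Helper26/TLE/M_Com.lean`. -/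
def SHCom : Prop := ∀ (p : ℕ), p.Prime → p ≠ 2 → ∀ (n : ℕ) (G : ℤ → ℤ → ℂ), 3 ≤ n → SymH p 0 n G →
  EqC (tSH p (tSH p G)) ((p : ℂ) • tSH p G) ∧
  EqC (sSH p n (sSH p n G)) ((p : ℂ) • sSH p n G) ∧
  EqC (tSH p (sSH p n G)) (sSH p n (tSH p G)) ∧
  EqC (tSH p (act 0 (-1) (2 * (p : ℤ) ^ n) 0 G)) (act 0 (-1) (2 * (p : ℤ) ^ n) 0 (sSH p n G)) ∧
  EqC (sSH p n (act 0 (-1) (2 * (p : ℤ) ^ n) 0 G)) (act 0 (-1) (2 * (p : ℤ) ^ n) 0 (tSH p G)) ∧
  EqC (tSH p (act (-1) 0 0 1 G)) (act (-1) 0 0 1 (tSH p G)) ∧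
  EqC (sSH p n (act (-1) 0 0 1 G)) (act (-1) 0 0 1 (sSH p n G)) ∧
  EqC (act 0 (-1) (2 * (p : ℤ) ^ n) 0 (act 0 (-1) (2 * (p : ℤ) ^ n) 0 G)) G ∧
  EqC (act (-1) 0 0 1 (act (-1) 0 0 1 G)) G ∧
  EqC (act 0 (-1) (2 * (p : ℤ) ^ n) 0 (act (-1) 0 0 1 G)) (act (-1) 0 0 1 (act 0 (-1) (2 * (p : ℤ) ^ n) 0 G))

/-- B3a (from AVG, MON, COM, EV). Decomposition: every symbol of level `n ≥ 3` has the same values at words as a symbol of level `n - 1` plus a new symbol with `W = -1`, `* = 1`. Proof: `A = tSH G / p`, `B = G - A`, `C = sSH B / p`, `E = B - C`, `F = (E - E∘W)/2`,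
`G1 = (F + F∘*)/2`, `G0 = C - A∘W`, as in `Pool/Agent/Helper6/TLE/M_B3a.lean`. -/
def SHB3a : Prop := ∀ (p : ℕ), p.Prime → p ≠ 2 → ∀ (n : ℕ) (G : ℤ → ℤ → ℂ), 3 ≤ n → SymH p 0 n G →
  ∃ G0 G1 : ℤ → ℤ → ℂ, SymH p 0 (n - 1) G0 ∧ NewSymH p n G1 ∧
    ∀ ls : List ℕ, OkE p ls → evw 1 ls G = evw 1 ls G0 + evw 1 ls G1

/-- B3b with dimension `D`: the values at words of the symbols of level `n = 2` lie in a space of dimension `D`. -/
def B3bH (p D : ℕ) : Prop := ∃ e : Fin D → List ℕ → ℂ, ∀ G : ℤ → ℤ → ℂ, SymH p 0 2 G →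
  ∃ x : Fin D → ℂ, ∀ ls : List ℕ, OkE p ls → evw 1 ls G = ∑ i, x i * e i ls

/-- UB: the space of new symbols of level `2 p^n` modulo constants has dimension at most `dd n` (`n ≥ 3`). -/
def UBH (p : ℕ) (dd : ℕ → ℕ) : Prop := ∀ n : ℕ, 3 ≤ n → ∃ Θ : NSH p n →ₗ[ℂ] (Fin (dd n) → ℂ),
  ∀ G : NSH p n, Θ G = 0 → EqC (G : ℤ → ℤ → ℂ) 0

/-- LB: the image of `evLH p` on the symbols of level `2 p^n` has dimension at least `D + ∑_{3 ≤ m ≤ n} dd m` (`n ≥ 2`). -/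
def LBH (p D : ℕ) (dd : ℕ → ℕ) : Prop := ∀ n : ℕ, 2 ≤ n →
  ∃ G : Fin (DDE D dd n) → (ℤ → ℤ → ℂ), (∀ k, SymH p 0 n (G k)) ∧
  LinearIndependent ℂ (fun k => evLH p (G k))

/-- Core: a new symbol of level `2 p^n`, `n ≥ 3`, with `W = -1`, `* = +1` which is killed by all words is constant. -/
def CoreH (p : ℕ) : Prop := ∀ (n : ℕ) (G : ℤ → ℤ → ℂ), 3 ≤ n → NewSymH p n G →
  (∀ ls : List ℕ, OkE p ls → evw 1 ls G = 0) → EqC G 0

/-- CORE. Proof from B3a, B3b, UB, LB as in `Pool/Agent/Helper38/TLE/M_CoreOf.lean` (with `XSH, NSH, evLH`). -/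
def SHCoreOf : Prop := SHB3a → ∀ (p D : ℕ) (dd : ℕ → ℕ), p.Prime → p ≠ 2 → B3bH p D → UBH p dd →
  LBH p D dd → CoreH p

/-- Core for symbols of any type: killed by all words, `W = -1`, `* = +1` implies constant, at level `2 p^n`. -/
def CoreV (p n : ℕ) : Prop := ∀ G : ℤ → ℤ → ℂ, SymH p 0 n G →
  EqC (act 0 (-1) (2 * (p : ℤ) ^ n) 0 G) (-G) → EqC (act (-1) 0 0 1 G) G →
  (∀ ls : List ℕ, OkE p ls → evw 1 ls G = 0) → EqC G 0

end Pool.Agent.Helper93.TLH
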