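import Pool.Agent.Helper93.TLH.M_Core1
import Pool.Agent.Helper85.TLH.M_Hk
import Pool.Agent.Helper36.TLH.M_HkS
import Pool.Agent.Helper45.TLH.M_HkW
import Pool.Agent.Helper73.TLH.M_Ev
import Pool.Agent.Helper69.TLH.M_Avg
import Pool.Agent.Helper81.TLH.M_Mon
import Pool.Agent.Helper29.TLH.M_Com
import Pool.Agent.Helper53.TLH.M_B3a
import Pool.Agent.Helper66.TLH.M_CoreOf
import Pool.Agent.Helper83.TLH.M_B3b
import Pool.Agent.Helper3.TLH.M_Core2
import Pool.Agent.Helper38.CV.M_Far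
import Pool.Agent.Helper28.TH.M_BrgH

/-!
# Project TH: the cores for levels `2·5^n` from the upper and the lower bound
-/

set_option autoImplicit false

namespace Pool.Agent.Helper93.TLH

open Pool.Agent.Helper14.CV (G0 RootOne Lan)
open Pool.Agent.Helper28.TL (IsNewN)
open Pool.Agent.Helper28.TH (ALPlus finalHN finalHS)

theorem hkH : SHHk := Pool.Agent.Helper85.TLH.hHk

theorem hksH : SHHkS := Pool.Agent.Helper36.TLH.hHkS hkH

theorem avgH : SHAvg := Pool.Agent.Helper69.TLH.hAvg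

theorem evH : SHEv := Pool.Agent.Helper73.TLH.hEv hksH (Pool.Agent.Helper45.TLH.hHkW hkH)

theorem b3aH : SHB3a :=
  Pool.Agent.Helper53.TLH.hB3a avgH Pool.Agent.Helper81.TLH.hMon Pool.Agent.Helper29.TLH.hCom evH

theorem bsH5 : BsH5 := hBs Pool.Agent.Helper38.CV.hFar

/-- The core for levels `2·5^n`, `n ≥ 3`. -/
theorem core5H (ub : UBH 5 ddH5) (lb : LBH 5 2 ddH5) : CoreH 5 :=
  Pool.Agent.Helper66.TLH.hCoreOf b3aH 5 2 ddH5 (by norm_num) (by norm_num) 
    (Pool.Agent.Helper83.TLH.hB3b avgH evH bsH5) ub lb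

theorem core52H (lb : LBH 5 2 ddH5) : CoreV 5 2 :=
  Pool.Agent.Helper3.TLH.hCore2 ddH5 avgH evH bsH5 lb

theorem core51H : CoreV 5 1 := hCore1 Pool.Agent.Helper38.CV.hFar

theorem core0H (p : ℕ) : CoreV p 0 := hCore0 Pool.Agent.Helper38.CV.hFar p

/-- Levels `2·5^n`. -/
theorem lvalH5 (ub : UBH 5 ddH5) (lb : LBH 5 2 ddH5) (n : ℕ)
    [NeZero (2 * 5 ^ n)] (f : CuspForm (G0 (2 * 5 ^ n)) 2)
    (hf : IsNewN f) (hal : ALPlus 2 (5 ^ n) f) (hR : RootOne f) : Lan f (1 / 2) ≠ 0 := by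
  rcases (by omega : n = 0 ∨ n = 1 ∨ n = 2 ∨ 3 ≤ n) with rfl | rfl | rfl | hn
  · exact finalHS 5 0 (by norm_num) (by norm_num) (core0H 5) f hf hal hR
  · exact finalHS 5 1 (by norm_num) (by norm_num) core51H f hf hal hR
  · exact finalHS 5 2 (by norm_num) (by norm_num) (core52H lb) f hf hal hR
  · exact finalHN 5 n (by norm_num) (by norm_num) (by omega)
      (fun G h ev => core5H ub lb n G hn h ev) f hf hal hR

end Pool.Agent.Helper93.TLH
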