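import Pool.Agent.Helper93.TLH.M_Bs3

/-!
# Project TH: the levels `6` and `18`
-/

set_option autoImplicit false

namespace Pool.Agent.Helper93.TLH

open Pool.Agent.Helper14.CV (Homog EqC act Tl StFar StFex)
open Pool.Agent.Helper28.WK (Tw evw)
open Pool.Agent.Helper4.TL (OkE)

private theorem nz {a b c d e : ℤ} (h : a * d - b * c = e) (he : e ≠ 0) :
    (a ≠ 0 ∨ c ≠ 0) ∧ (b ≠ 0 ∨ d ≠ 0) := by
  constructor
  · by_contra hcon
    push Not at hcon
    rw [hcon.1, hcon.2] at h
    apply he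
    rw [← h]
    ring
  · by_contra hcon
    push Not at hcon
    rw [hcon.1, hcon.2] at h
    apply he
    rw [← h]
    ring

/-- The representatives of determinant one. -/
private def L1 : List (ℤ × ℤ × ℤ × ℤ) := [(1, 0, 0, 1), (1, 0, 2, 1), (1, 0, -2, 1)]

/-- The representatives of determinant two. -/
private def L2 : List (ℤ × ℤ × ℤ × ℤ) := [(0, -1, 2, 0)]

private lemma cls : ∀ r s : ZMod 3, (r ≠ 0 ∨ s ≠ 0) → ∃ t ∈ L1 ++ L2,
    r * (t.2.2.2 : ZMod 3) - s * (t.2.2.1 : ZMod 3) = 0 := by decide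

private lemma dvd3 {n : ℤ} : (3 : ℤ) ∣ n ↔ (n : ZMod 3) = 0 :=
  (ZMod.intCast_zmod_eq_zero_iff_dvd n 3).symm

/-- Level `6`. -/
theorem hCore31 (hfar : StFar) : CoreV 3 1 := by
  intro F hS hW hst hev
  have gam : ∀ a b c d : ℤ, HTy a b c d → (3 : ℤ) ∣ c → ∀ x y z w : ℤ, (x ≠ 0 ∨ y ≠ 0) →
      (z ≠ 0 ∨ w ≠ 0) → F (a * x + b * y) (c * x + d * y) - F (a * z + b * w) (c * z + d * w) =
        F x y - F z w := by
    intro a b c d hT hc x y z w hv hw
    exact (hS.2 a b c d hT (by simp) (by simpa using hc)).diff hv hw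
  have hs : ∀ (k x y : ℤ), k ≠ 0 → (x ≠ 0 ∨ y ≠ 0) → F (k * x) (k * y) = F x y := hS.1
  set κ : ℂ := F 1 0 with hκ
  have k0 : F 1 0 = κ := rfl
  have b0 : F 0 1 = κ := by
    have h01 : F 1 0 - F 0 1 = 0 := hev [] (by intro l hl; simp at hl)
    linear_combination -h01
  have a0 : F (-1) 0 = κ := by
    have := hs (-1) 1 0 (by norm_num) (by norm_num)
    norm_num at this
    rw [this]
  have st : ∀ x y : ℤ, (x ≠ 0 ∨ y ≠ 0) → F (-x) y = F x y := by
    intro x y hv
    have e := hst.diff (p := x) (q := y) (p' := 1) (q' := 0) hv (by norm_num)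
    simp only [act] at e
    norm_num at e
    rw [a0] at e
    linear_combination e + k0 - k0
  have mt : HTy 2 (-1) 6 (-2) := Or.inr (by decide)
  have k3 : F 1 2 = κ := by
    have m1 := gam 2 (-1) 6 (-2) mt (by norm_num) 0 1 1 2 (by norm_num) (by norm_num)
    have s1 := hs 2 0 1 (by norm_num) (by norm_num)
    have s2 := hs (-1) 1 2 (by norm_num) (by norm_num)
    norm_num at m1 s1 s2
    rw [s1, s2] at m1
    linear_combination (m1 + 2 * b0) / 2
  have k4 : F (-1) 2 = κ := (st 1 2 (by norm_num)).trans k3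
  have n0 : F 0 2 = κ := by
    have := hs 2 0 1 (by norm_num) (by norm_num)
    norm_num at this
    rw [this, b0]
  have n1 : F (-1) (-2) = κ := by
    have := hs (-1) 1 2 (by norm_num) (by norm_num)
    norm_num at this
    rw [this, k3]
  refine far2 hfar F hS.1 fun p q r s hd hpar => ?_
  have hpr := (nz hd one_ne_zero).1
  have hqs := (nz hd one_ne_zero).2
  have hL : ∀ t ∈ L1 ++ L2, HTy t.1 t.2.1 t.2.2.1 t.2.2.2 ∧ F t.1 t.2.2.1 = F t.2.1 t.2.2.2 := by
    intro t ht
    simp only [L1, L2, List.cons_append, List.nil_append, List.mem_cons, List.not_mem_nil,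
      or_false] at ht
    have q1 : F 1 (-2) = κ := by
      have := hs (-1) (-1) 2 (by norm_num) (by norm_num)
      norm_num at this
      rw [this, k4]
    have q2 : F (-1) 0 = κ := a0
    have q3 : F (-1) (-2) = κ := n1
    rcases ht with rfl | rfl | rfl | rfl
    · exact ⟨by unfold HTy; decide, k0.trans b0.symm⟩
    · exact ⟨by unfold HTy; decide, k3.trans b0.symm⟩
    · exact ⟨by unfold HTy; decide, q1.trans b0.symm⟩
    · exact ⟨by unfold HTy; decide, n0.trans q2.symm⟩
  have hc : (r : ZMod 3) ≠ 0 ∨ (s : ZMod 3) ≠ 0 := by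
    by_contra hcon
    push Not at hcon
    have h' := congrArg (Int.cast : ℤ → ZMod 3) hd
    push_cast at h'
    rw [hcon.1, hcon.2, mul_zero, mul_zero, sub_zero] at h'
    exact absurd h' (by decide)
  obtain ⟨t, htL, e2'⟩ := cls _ _ hc
  obtain ⟨hr, h0⟩ := hL t htL
  have e2 : (3 : ℤ) ∣ r * t.2.2.2 - s * t.2.2.1 := dvd3.2 (by push_cast; exact e2')
  obtain ⟨r1, r2, r3, r4⟩ := t
  simp only at hr h0 e2
  rcases hr with ⟨hr, hr3⟩ | ⟨hr, hr1, hr3, hr4⟩
  · obtain ⟨n1, n2⟩ := nz hr one_ne_zero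
    have hT : HTy (p * r4 - q * r3) (q * r1 - p * r2) (r * r4 - s * r3) (s * r1 - r * r2) := by
      refine Or.inl ⟨?_, ?_⟩
      · linear_combination (p * s - q * r) * hr + hd
      · exact dvd_sub (Dvd.dvd.mul_right hpar _) (Dvd.dvd.mul_left hr3 _)
    have e := gam _ _ _ _ hT e2 r1 r3 r2 r4 n1 n2
    have g1 : (p * r4 - q * r3) * r1 + (q * r1 - p * r2) * r3 = p := by
      linear_combination p * hr
    have g2 : (r * r4 - s * r3) * r1 + (s * r1 - r * r2) * r3 = r := by
      linear_combination r * hr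
    have g3 : (p * r4 - q * r3) * r2 + (q * r1 - p * r2) * r4 = q := by
      linear_combination q * hr
    have g4 : (r * r4 - s * r3) * r2 + (s * r1 - r * r2) * r4 = s := by
      linear_combination s * hr
    rw [g1, g2, g3, g4, h0, sub_self] at e
    exact sub_eq_zero.1 e
  · obtain ⟨n1, n2⟩ := nz hr two_ne_zero
    have hT : HTy (p * r4 - q * r3) (q * r1 - p * r2) (r * r4 - s * r3) (s * r1 - r * r2) := by
      refine Or.inr ⟨?_, ?_, ?_, ?_⟩
      · linear_combination (p * s - q * r) * hr + 2 * hd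
      · exact dvd_sub (Dvd.dvd.mul_left hr4 _) (Dvd.dvd.mul_left hr3 _)
      · exact dvd_sub (Dvd.dvd.mul_right hpar _) (Dvd.dvd.mul_left hr3 _)
      · exact dvd_sub (Dvd.dvd.mul_left hr1 _) (Dvd.dvd.mul_right hpar _)
    have e := gam _ _ _ _ hT e2 r1 r3 r2 r4 n1 n2
    have g1 : (p * r4 - q * r3) * r1 + (q * r1 - p * r2) * r3 = 2 * p := by
      linear_combination p * hr
    have g2 : (r * r4 - s * r3) * r1 + (s * r1 - r * r2) * r3 = 2 * r := by
      linear_combination r * hr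
    have g3 : (p * r4 - q * r3) * r2 + (q * r1 - p * r2) * r4 = 2 * q := by
      linear_combination q * hr
    have g4 : (r * r4 - s * r3) * r2 + (s * r1 - r * r2) * r4 = 2 * s := by
      linear_combination s * hr
    rw [g1, g2, g3, g4, h0, sub_self, hs 2 p r two_ne_zero hpr, hs 2 q s two_ne_zero hqs] at e
    exact sub_eq_zero.1 e

/-- Level `18`. -/
theorem hCore32 (hfar : StFar) : CoreV 3 2 := by
  intro G hS hW hst hev
  have h01 : G 1 0 - G 0 1 = 0 := hev [] (by intro l hl; simp at hl)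
  exact hBs3 hfar G hS (by rwa [Nat.cast_ofNat] at hW) hst (sub_eq_zero.1 h01)

end Pool.Agent.Helper93.TLH
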