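import Pool.Agent.Helper93.TLH.Asm
import Pool.Agent.Helper93.TLH.M_Core3
import Pool.Agent.Helper73.TLH.M_B3bG
import Pool.Agent.Helper36.TLH.M_Core2G

/-!
# Project TH: the cores for levels `2·3^n` from the upper and the lower bound
-/

set_option autoImplicit false

namespace Pool.Agent.Helper93.TLH

open Pool.Agent.Helper14.CV (G0 RootOne Lan EqC act)
open Pool.Agent.Helper28.TL (IsNewN)
open Pool.Agent.Helper28.TH (ALPlus finalHN finalHS)

/-- The coordinate at level `18`. -/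
def a3H : (ℤ → ℤ → ℂ) →ₗ[ℂ] (Fin 1 → ℂ) where
  toFun K := ![K 1 0 - K 0 1]
  map_add' K L := by
    funext i
    fin_cases i
    simp
    ring
  map_smul' s K := by
    funext i
    fin_cases i
    simp
    ring

theorem bsG3 : BsG 3 1 a3H := by
  intro K hS hW hst ha
  have e0 := congrFun ha 0
  simp only [a3H, LinearMap.coe_mk, AddHom.coe_mk, Matrix.cons_val_zero, Pi.zero_apply] at e0
  exact hBs3 Pool.Agent.Helper38.CV.hFar K hS (by rwa [Nat.cast_ofNat] at hW) hst (sub_eq_zero.1 e0)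

theorem b3b3H : B3bH 3 1 :=
  Pool.Agent.Helper73.TLH.hB3bG 3 1 a3H (by norm_num) (by norm_num) avgH evH bsG3

/-- The core for levels `2·3^n`, `n ≥ 3`. -/
theorem core3H (dd : ℕ → ℕ) (ub : UBH 3 dd) (lb : LBH 3 1 dd) : CoreH 3 :=
  Pool.Agent.Helper66.TLH.hCoreOf b3aH 3 1 dd (by norm_num) (by norm_num) b3b3H ub lb

theorem core32H : CoreV 3 2 := hCore32 Pool.Agent.Helper38.CV.hFar

theorem core31H : CoreV 3 1 := hCore31 Pool.Agent.Helper38.CV.hFar

/-- Levels `2`, `6`, `18`. -/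
theorem lvalH3s (n : ℕ) (hn : n ≤ 2) [NeZero (2 * 3 ^ n)] (f : CuspForm (G0 (2 * 3 ^ n)) 2)
    (hf : IsNewN f) (hal : ALPlus 2 (3 ^ n) f) (hR : RootOne f) : Lan f (1 / 2) ≠ 0 := by
  rcases (by omega : n = 0 ∨ n = 1 ∨ n = 2) with rfl | rfl | rfl
  · exact finalHS 3 0 (by norm_num) (by norm_num) (core0H 3) f hf hal hR
  · exact finalHS 3 1 (by norm_num) (by norm_num) core31H f hf hal hR
  · exact finalHS 3 2 (by norm_num) (by norm_num) core32H f hf hal hR

/-- Levels `2·3^n`. -/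
theorem lvalH3 (dd : ℕ → ℕ) (ub : UBH 3 dd) (lb : LBH 3 1 dd) (n : ℕ)
    [NeZero (2 * 3 ^ n)] (f : CuspForm (G0 (2 * 3 ^ n)) 2)
    (hf : IsNewN f) (hal : ALPlus 2 (3 ^ n) f) (hR : RootOne f) : Lan f (1 / 2) ≠ 0 := by
  rcases (by omega : n ≤ 2 ∨ 3 ≤ n) with hn | hn
  · exact lvalH3s n hn f hf hal hR
  · exact finalHN 3 n (by norm_num) (by norm_num) (by omega)
      (fun G h ev => core3H dd ub lb n G hn h ev) f hf hal hR

end Pool.Agent.Helper93.TLH
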