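import Pool.Agent.Helper93.TLH.StB2
import Pool.Agent.Helper14.CV.StB

/-!
# Project TH: a symbol of level `50` is determined by three values
-/

set_option autoImplicit false

namespace Pool.Agent.Helper93.TLH

open Pool.Agent.Helper14.CV (Homog EqC act Tl StFar StFex)

/-- Equal values at the ends of all paths `{g∞, g0}`, `g` in `Γ₀(2)`, suffice. -/
theorem far2 (hfar : StFar) {R : Type} [AddCommGroup R] (F : ℤ → ℤ → R) (hom : Homog F)
    (h : ∀ p q r s : ℤ, p * s - q * r = 1 → (2 : ℤ) ∣ r → F p r = F q s) : EqC F 0 := by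
  refine hfar R _ F hom fun p q r s hd => ?_
  have hne : p ≠ 0 ∨ r ≠ 0 := by
    by_contra hcon
    push Not at hcon
    rw [hcon.1, hcon.2] at hd
    simp at hd
  have hng : F (-p) (-r) = F p r := by
    have := hom (-1) p r (by norm_num) hne
    rwa [neg_one_mul, neg_one_mul] at this
  by_cases hr : (2 : ℤ) ∣ r
  · exact h p q r s hd hr
  by_cases hs : (2 : ℤ) ∣ s
  · have := h q (-p) s (-r) (by linear_combination hd) hs
    rw [this, hng]
  · have h2 : (2 : ℤ) ∣ r - s := by omega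
    have e1 := h (p - q) q (r - s) s (by linear_combination hd) h2
    have e2 := h (p - q) p (r - s) r (by linear_combination hd) h2
    rw [← e2, e1]

/-- The representatives of determinant one. -/
private def L1 : List (ℤ × ℤ × ℤ × ℤ) :=
  [(3, 1, 2, 1), (3, -2, 2, -1), (5, 2, 2, 1), (-5, 2, 2, -1), (-3, -2, 2, 1), (-3, 1, 2, -1),
    (-1, -1, 2, 1), (-1, 0, 2, -1), (-1, 1, 2, -3), (-1, 0, 4, -1), (-1, 1, 4, -5), (1, 1, 4, 5),
    (1, 0, 4, 1), (1, 1, 2, 3), (1, 0, 2, 1), (1, 2, 0, 1), (1, -2, 0, 1), (1, -1, 0, 1),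
    (1, 0, 0, 1), (1, 1, 0, 1), (1, -1, 2, -1)]

/-- The representatives of determinant two. -/
private def L2 : List (ℤ × ℤ × ℤ × ℤ) :=
  [(2, -1, 2, 0), (4, 3, 2, 2), (-4, 3, 2, -2), (-2, -1, 2, 0), (-2, 1, 2, -2), (0, -1, 2, 2),
    (0, -1, 2, -2), (0, -1, 2, 0), (2, 1, 2, 2)]

set_option maxRecDepth 100000 in
private lemma cls : ∀ p q r s : ZMod 5, p * s - q * r = 1 → ∃ t ∈ L1 ++ L2,
    q * (t.1 : ZMod 5) - p * (t.2.1 : ZMod 5) = 0 ∧
      r * (t.2.2.2 : ZMod 5) - s * (t.2.2.1 : ZMod 5) = 0 := by decide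

private lemma dvd5 {n : ℤ} : (5 : ℤ) ∣ n ↔ (n : ZMod 5) = 0 :=
  (ZMod.intCast_zmod_eq_zero_iff_dvd n 5).symm

/-- The symmetries of `F(x, y) = K(x, 5y)`. -/
private structure Inv (F : ℤ → ℤ → ℂ) : Prop where
  hom : Homog F
  gam : ∀ a b c d : ℤ, HTy a (5 * b) (5 * c) d → ∀ x y z w : ℤ, (x ≠ 0 ∨ y ≠ 0) →
    (z ≠ 0 ∨ w ≠ 0) → F (a * x + 5 * b * y) (5 * c * x + d * y) -
      F (a * z + 5 * b * w) (5 * c * z + d * w) = F x y - F z w
  st : ∀ x y z w : ℤ, (x ≠ 0 ∨ y ≠ 0) → (z ≠ 0 ∨ w ≠ 0) →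
    F (-x) y - F (-z) w = F x y - F z w
  sw : ∀ x y z w : ℤ, (x ≠ 0 ∨ y ≠ 0) → (z ≠ 0 ∨ w ≠ 0) →
    F (-y) (2 * x) - F (-w) (2 * z) = -(F x y - F z w)

private theorem nz {a b c d e : ℤ} (h : a * d - b * c = e) (he : e ≠ 0) :
    (a ≠ 0 ∨ c ≠ 0) ∧ (b ≠ 0 ∨ d ≠ 0) := by
  constructor
  · by_contra hcon
    push Not at hcon
    rw [hcon.1, hcon.2] at h
    apply he
    rw [← h]
    ring
  · by_contra hcon
    push Not at hcon
    rw [hcon.1, hcon.2] at h
    apply he
    rw [← h]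
    ring

private theorem one {F : ℤ → ℤ → ℂ} (h : Inv F) {r1 r2 r3 r4 : ℤ} (hr : HTy r1 r2 r3 r4)
    (h0 : F r1 r3 = F r2 r4)
    {p q r s : ℤ} (hd : p * s - q * r = 1) (hpar : (2 : ℤ) ∣ r) (e1 : (5 : ℤ) ∣ q * r1 - p * r2)
    (e2 : (5 : ℤ) ∣ r * r4 - s * r3) : F p r = F q s := by
  obtain ⟨b, hb⟩ := e1
  obtain ⟨c, hc⟩ := e2
  have hpr := (nz hd one_ne_zero).1
  have hqs := (nz hd one_ne_zero).2
  have hprod : 5 * b * (5 * c) = (q * r1 - p * r2) * (r * r4 - s * r3) := by rw [hb, hc]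
  rcases hr with ⟨hr, hr3⟩ | ⟨hr, hr1, hr3, hr4⟩
  · obtain ⟨n1, n2⟩ := nz hr one_ne_zero
    have hT : HTy (p * r4 - q * r3) (5 * b) (5 * c) (s * r1 - r * r2) := by
      refine Or.inl ⟨?_, ?_⟩
      · rw [hprod]
        linear_combination (p * s - q * r) * hr + hd
      · rw [← hc]
        exact dvd_sub (Dvd.dvd.mul_right hpar _) (Dvd.dvd.mul_left hr3 _)
    have e := h.gam _ b c _ hT r1 r3 r2 r4 n1 n2
    have g1 : (p * r4 - q * r3) * r1 + 5 * b * r3 = p := by
      linear_combination p * hr - r3 * hb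
    have g2 : 5 * c * r1 + (s * r1 - r * r2) * r3 = r := by
      linear_combination r * hr - r1 * hc
    have g3 : (p * r4 - q * r3) * r2 + 5 * b * r4 = q := by
      linear_combination q * hr - r4 * hb
    have g4 : 5 * c * r2 + (s * r1 - r * r2) * r4 = s := by
      linear_combination s * hr - r2 * hc
    rw [g1, g2, g3, g4, h0, sub_self] at e
    exact sub_eq_zero.1 e
  · obtain ⟨n1, n2⟩ := nz hr two_ne_zero
    have hT : HTy (p * r4 - q * r3) (5 * b) (5 * c) (s * r1 - r * r2) := by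
      refine Or.inr ⟨?_, ?_, ?_, ?_⟩
      · rw [hprod]
        linear_combination (p * s - q * r) * hr + 2 * hd
      · exact dvd_sub (Dvd.dvd.mul_left hr4 _) (Dvd.dvd.mul_left hr3 _)
      · rw [← hc]
        exact dvd_sub (Dvd.dvd.mul_right hpar _) (Dvd.dvd.mul_left hr3 _)
      · exact dvd_sub (Dvd.dvd.mul_left hr1 _) (Dvd.dvd.mul_right hpar _)
    have e := h.gam _ b c _ hT r1 r3 r2 r4 n1 n2
    have g1 : (p * r4 - q * r3) * r1 + 5 * b * r3 = 2 * p := by
      linear_combination p * hr - r3 * hb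
    have g2 : 5 * c * r1 + (s * r1 - r * r2) * r3 = 2 * r := by
      linear_combination r * hr - r1 * hc
    have g3 : (p * r4 - q * r3) * r2 + 5 * b * r4 = 2 * q := by
      linear_combination q * hr - r4 * hb
    have g4 : 5 * c * r2 + (s * r1 - r * r2) * r4 = 2 * s := by
      linear_combination s * hr - r2 * hc
    rw [g1, g2, g3, g4, h0, sub_self, h.hom 2 p r two_ne_zero hpr,
      h.hom 2 q s two_ne_zero hqs] at e
    exact sub_eq_zero.1 e

private theorem main {F : ℤ → ℤ → ℂ} (h : Inv F) {κ : ℂ} (k0 : F 1 0 = κ) (k1 : F 1 1 = κ)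
    (k2 : F 2 1 = κ) (hfar : StFar) : EqC F 0 := by
  -- homogeneity
  have hs : ∀ (k x y : ℤ), k ≠ 0 → (x ≠ 0 ∨ y ≠ 0) → F (k * x) (k * y) = F x y := h.hom
  have st : ∀ x y : ℤ, (x ≠ 0 ∨ y ≠ 0) → F x y = κ → F (-x) y = κ := by
    intro x y hv hx
    have e := h.st x y 1 0 hv (by norm_num)
    have e0 := hs (-1) 1 0 (by norm_num) (by norm_num)
    norm_num at e0
    rw [e0, hx, k0, sub_self] at e
    exact sub_eq_zero.1 e
  have a1 : F (-1) 1 = κ := st 1 1 (by norm_num) k1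
  -- the involution `x ↦ -1/(2x)`, first form
  have w1 : F 1 2 = F 0 1 := by
    have e := h.sw (-1) 1 1 0 (by norm_num) (by norm_num)
    have e1 := hs (-1) 1 2 (by norm_num) (by norm_num)
    have e2 := hs 2 0 1 (by norm_num) (by norm_num)
    norm_num at e e1 e2
    rw [e1, e2, a1, k0, sub_self] at e
    exact sub_eq_zero.1 e
  have mt : HTy 6 (5 * (-1)) (5 * 2) (-8) := Or.inr (by decide)
  have k3 : F 1 2 = κ := by
    have m1 := h.gam 6 (-1) 2 (-8) mt 1 1 1 2 (by norm_num) (by norm_num)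
    have m2 := h.gam 6 (-1) 2 (-8) mt 1 2 2 3 (by norm_num) (by norm_num)
    have m3 := h.gam 6 (-1) 2 (-8) mt 2 3 3 4 (by norm_num) (by norm_num)
    have s1 := hs (-2) 2 3 (by norm_num) (by norm_num)
    have s2 := hs (-1) 3 4 (by norm_num) (by norm_num)
    have s3 := hs (-2) 1 1 (by norm_num) (by norm_num)
    norm_num at m1 m2 m3 s1 s2 s3
    rw [s1] at m1
    rw [s1, s2] at m2
    rw [s2, s3] at m3
    have : (4 : ℂ) * (F 1 2 - κ) = 0 := by
      linear_combination (3 : ℂ) * m1 + 2 * m2 + m3 + 4 * k1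
    rcases mul_eq_zero.1 this with h4 | h4
    · norm_num at h4
    · exact sub_eq_zero.1 h4
  have b0 : F 0 1 = κ := by rw [← w1, k3]
  have sw : ∀ x y : ℤ, (x ≠ 0 ∨ y ≠ 0) → F x y = κ → F (-y) (2 * x) = κ := by
    intro x y hv hx
    have e := h.sw x y 1 0 hv (by norm_num)
    have e2 := hs 2 0 1 (by norm_num) (by norm_num)
    norm_num at e e2
    rw [e2, hx, k0, b0] at e
    linear_combination e
  have sc : ∀ k x y : ℤ, k ≠ 0 → (x ≠ 0 ∨ y ≠ 0) → F (k * x) (k * y) = κ → F x y = κ := by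
    intro k x y hk hv he
    rw [← hs k x y hk hv, he]
  have a2 : F (-2) 1 = κ := st 2 1 (by norm_num) k2
  have a3 : F (-1) 2 = κ := st 1 2 (by norm_num) k3
  have c1 : F (-1) 4 = κ := by
    have := sw 2 1 (by norm_num) k2
    norm_num at this
    exact this
  have c2 : F 1 4 = κ := by
    have := st (-1) 4 (by norm_num) c1
    norm_num at this
    exact this
  -- one fifth and five halves
  have mt2 : HTy (-2) (5 * 1) (5 * (-2)) 24 := Or.inr (by decide)
  have d1 : F 1 5 = κ := by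
    have m1 := h.gam (-2) 1 (-2) 24 mt2 1 0 2 1 (by norm_num) (by norm_num)
    have s1 := hs (-2) 1 5 (by norm_num) (by norm_num)
    norm_num at m1 s1
    rw [s1, c2, k0, k2, sub_self] at m1
    exact sub_eq_zero.1 m1
  have d2 : F (-1) 5 = κ := st 1 5 (by norm_num) d1
  have d3 : F 5 2 = κ := by
    have := sw (-1) 5 (by norm_num) d2
    exact sc (-1) 5 2 (by norm_num) (by norm_num) (by norm_num at this ⊢; exact this)
  have d4 : F (-5) 2 = κ := st 5 2 (by norm_num) d3
  -- three halves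
  have mt3 : HTy (-4) (5 * 1) (5 * (-2)) 12 := Or.inr (by decide)
  have f1 : F 3 2 = κ := by
    have m1 := h.gam (-4) 1 (-2) 12 mt3 3 2 1 1 (by norm_num) (by norm_num)
    have m2 := h.st 1 3 1 2 (by norm_num) (by norm_num)
    have m3 := h.sw (-1) 3 (-1) 2 (by norm_num) (by norm_num)
    have s1 := hs (-2) 1 3 (by norm_num) (by norm_num)
    have s2 := hs (-1) 3 2 (by norm_num) (by norm_num)
    have s3 := hs (-2) 1 1 (by norm_num) (by norm_num)
    norm_num at m1 m2 m3 s1 s2 s3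
    rw [s1] at m1
    rw [s2, s3] at m3
    have : (2 : ℂ) * (F 3 2 - κ) = 0 := by
      linear_combination (-1 : ℂ) * m1 - m2 + m3 + 2 * k1
    rcases mul_eq_zero.1 this with h4 | h4
    · norm_num at h4
    · exact sub_eq_zero.1 h4
  have f2 : F (-3) 2 = κ := st 3 2 (by norm_num) f1
  have f3 : F (-1) 3 = κ := by
    have := sw 3 2 (by norm_num) f1
    exact sc 2 (-1) 3 (by norm_num) (by norm_num) (by norm_num at this ⊢; exact this)
  have f4 : F 1 3 = κ := by
    have := st (-1) 3 (by norm_num) f3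
    norm_num at this
    exact this
  have ng : ∀ x y : ℤ, (x ≠ 0 ∨ y ≠ 0) → F x y = κ → F (-x) (-y) = κ := by
    intro x y hv hx
    have e := hs (-1) x y (by norm_num) hv
    rw [neg_one_mul, neg_one_mul] at e
    rw [e, hx]
  have m1 := ng _ _ (by norm_num) k0
  have m2 := ng _ _ (by norm_num) b0
  have m3 := ng _ _ (by norm_num) k1
  have m4 := ng _ _ (by norm_num) a1
  have m5 := ng _ _ (by norm_num) k2
  have m6 := ng _ _ (by norm_num) a2
  have m7 := ng _ _ (by norm_num) k3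
  have m8 := ng _ _ (by norm_num) a3
  have m9 := ng _ _ (by norm_num) f3
  have m10 := ng _ _ (by norm_num) f4
  have m11 := ng _ _ (by norm_num) d1
  have m12 := ng _ _ (by norm_num) d2
  simp only [neg_neg, neg_zero] at m1 m2 m3 m4 m5 m6 m7 m8 m9 m10 m11 m12
  have n1 : F 2 0 = κ := by
    have := hs 2 1 0 (by norm_num) (by norm_num)
    norm_num at this
    rw [this, k0]
  have n2 : F 0 2 = κ := by
    have := hs 2 0 1 (by norm_num) (by norm_num)
    norm_num at this
    rw [this, b0]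
  have n3 : F 2 2 = κ := by
    have := hs 2 1 1 (by norm_num) (by norm_num)
    norm_num at this
    rw [this, k1]
  have n4 : F 4 2 = κ := by
    have := hs 2 2 1 (by norm_num) (by norm_num)
    norm_num at this
    rw [this, k2]
  have n5 : F (-4) 2 = κ := st 4 2 (by norm_num) n4
  have n6 : F (-2) 2 = κ := st 2 2 (by norm_num) n3
  have n7 : F 3 (-2) = κ := by
    have := ng _ _ (by norm_num) f2
    norm_num at this
    exact this
  refine far2 hfar F h.hom fun p q r s hd hpar => ?_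
  have hL : ∀ t ∈ L1 ++ L2, HTy t.1 t.2.1 t.2.2.1 t.2.2.2 ∧ F t.1 t.2.2.1 = κ ∧
      F t.2.1 t.2.2.2 = κ := by
    intro t ht
    simp only [L1, L2, List.cons_append, List.nil_append, List.mem_cons, List.not_mem_nil,
      or_false] at ht
    rcases ht with rfl | rfl | rfl | rfl | rfl | rfl | rfl | rfl | rfl | rfl | rfl | rfl | rfl |
      rfl | rfl | rfl | rfl | rfl | rfl | rfl | rfl | rfl | rfl | rfl | rfl | rfl | rfl | rfl |
      rfl | rfl
    all_goals exact ⟨by unfold HTy; decide, by assumption, by assumption⟩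
  have hc : (p : ZMod 5) * s - q * r = 1 := by
    have h' := congrArg (Int.cast : ℤ → ZMod 5) hd
    push_cast at h'
    exact h'
  obtain ⟨t, htL, e1, e2⟩ := cls _ _ _ _ hc
  obtain ⟨f1, f2, f3⟩ := hL t htL
  exact one h f1 (f2.trans f3.symm) hd hpar (dvd5.2 (by push_cast; exact e1))
    (dvd5.2 (by push_cast; exact e2))

private theorem five {x y : ℤ} (h : x ≠ 0 ∨ y ≠ 0) : x ≠ 0 ∨ 5 * y ≠ 0 := by
  rcases h with h | h
  · exact Or.inl h
  · exact Or.inr (by omega)

/-- BS5. -/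
theorem hBs (hfar : StFar) : BsH5 := by
  intro K hS hW hst h1 h2
  obtain ⟨hH, hG⟩ := hS
  obtain ⟨F, hF⟩ : ∃ F : ℤ → ℤ → ℂ, ∀ x y, F x y = K x (5 * y) := ⟨fun x y => K x (5 * y),
    fun _ _ => rfl⟩
  have hI : Inv F := by
    refine ⟨?_, ?_, ?_, ?_⟩
    · intro k p q hk hpq
      rw [hF, hF]
      have := hH k p (5 * q) hk (five hpq)
      rw [← this]
      congr 1; ring
    · intro a b c d hd x y z w hv hw
      have hT : HTy a b (25 * c) d := by
        rcases hd with ⟨h1, h2⟩ | ⟨h1, h2, h3, h4⟩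
        · exact Or.inl ⟨by linear_combination h1, by omega⟩
        · exact Or.inr ⟨by linear_combination h1, h2, by omega, h4⟩
      have e := (hG a b (25 * c) d hT (by simp) ⟨c, by norm_num⟩).diff (five hv) (five hw)
      simp only [act] at e
      rw [hF, hF, hF, hF, ← e]
      congr 2 <;> ring
    · intro x y z w hv hw
      have e := hst.diff (five hv) (five hw)
      simp only [act] at e
      rw [hF, hF, hF, hF, ← e]
      congr 2 <;> ring
    · intro x y z w hv hw
      have e := hW.diff (five hv) (five hw)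
      simp only [act, Pi.neg_apply] at e
      have q1 : ∀ x y : ℤ, (x ≠ 0 ∨ y ≠ 0) →
          K (0 * x + -1 * (5 * y)) (2 * (5 : ℤ) ^ 2 * x + 0 * (5 * y)) = F (-y) (2 * x) := by
        intro x y hv
        rw [hF]
        have := hH 5 (-y) (5 * (2 * x)) (by norm_num) (by omega)
        rw [← this]
        congr 1 <;> ring
      rw [q1 x y hv, q1 z w hw] at e
      rw [e, hF, hF]
      ring
  have hc : EqC F 0 := by
    refine main hI (κ := K 1 0) ?_ ?_ ?_ hfar
    · rw [hF]; norm_num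
    · rw [hF, h1]; norm_num
    · rw [hF, h1, h2]; norm_num
  obtain ⟨c, hc⟩ := hc
  refine ⟨c, fun p q hpq => ?_⟩
  have e1 := hc (5 * p) q (by omega)
  rw [hF] at e1
  have e2 := hH 5 p q (by norm_num) hpq
  rw [← e2, e1]
  simp

end Pool.Agent.Helper93.TLH
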