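import Pool.Agent.Helper93.TLH.M_Core1

/-!
# Project TH: a symbol of level `18` is determined by two values
-/

set_option autoImplicit false

namespace Pool.Agent.Helper93.TLH

open Pool.Agent.Helper14.CV (Homog EqC act Tl StFar StFex)
open Pool.Agent.Helper28.WK (Tw evw)
open Pool.Agent.Helper4.TL (OkE)

/-- The content of BS for `p = 3`: a symbol `K` of level `18` with `K∘W ≈ -K`, `K∘* ≈ K` and `K(∞) = K(0)` is constant. -/
def BsH3 : Prop := ∀ K : ℤ → ℤ → ℂ, SymH 3 0 2 K → EqC (act 0 (-1) (2 * (3 : ℤ) ^ 2) 0 K) (-K) →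
  EqC (act (-1) 0 0 1 K) K → K 1 0 = K 0 1 → EqC K 0

/-- The representatives of determinant one. -/
private def L1 : List (ℤ × ℤ × ℤ × ℤ) :=
  [(-1, -1, 2, 1), (-1, 0, 2, -1), (1, 0, 2, 1), (1, -1, 2, -1), (1, 1, 0, 1), (1, 0, 0, 1), (1, -1, 0, 1)]

/-- The representatives of determinant two. -/
private def L2 : List (ℤ × ℤ × ℤ × ℤ) :=
  [(2, -1, 2, 0), (-2, -1, 2, 0), (0, -1, 2, 2), (0, -1, 2, 0), (0, -1, 2, -2)]

set_option maxRecDepth 100000 in
private lemma cls : ∀ p q r s : ZMod 3, p * s - q * r = 1 → ∃ t ∈ L1 ++ L2,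
    q * (t.1 : ZMod 3) - p * (t.2.1 : ZMod 3) = 0 ∧
      r * (t.2.2.2 : ZMod 3) - s * (t.2.2.1 : ZMod 3) = 0 := by decide

private lemma dvd5 {n : ℤ} : (3 : ℤ) ∣ n ↔ (n : ZMod 3) = 0 :=
  (ZMod.intCast_zmod_eq_zero_iff_dvd n 3).symm

/-- The symmetries of `F(x, y) = K(x, 3y)`. -/
private structure Inv (F : ℤ → ℤ → ℂ) : Prop where
  hom : Homog F
  gam : ∀ a b c d : ℤ, HTy a (3 * b) (3 * c) d → ∀ x y z w : ℤ, (x ≠ 0 ∨ y ≠ 0) →
    (z ≠ 0 ∨ w ≠ 0) → F (a * x + 3 * b * y) (3 * c * x + d * y) -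
      F (a * z + 3 * b * w) (3 * c * z + d * w) = F x y - F z w
  st : ∀ x y z w : ℤ, (x ≠ 0 ∨ y ≠ 0) → (z ≠ 0 ∨ w ≠ 0) →
    F (-x) y - F (-z) w = F x y - F z w
  sw : ∀ x y z w : ℤ, (x ≠ 0 ∨ y ≠ 0) → (z ≠ 0 ∨ w ≠ 0) →
    F (-y) (2 * x) - F (-w) (2 * z) = -(F x y - F z w)

private theorem nz {a b c d e : ℤ} (h : a * d - b * c = e) (he : e ≠ 0) :
    (a ≠ 0 ∨ c ≠ 0) ∧ (b ≠ 0 ∨ d ≠ 0) := by
  constructor
  · by_contra hcon
    push Not at hcon
    rw [hcon.1, hcon.2] at h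
    apply he
    rw [← h]
    ring
  · by_contra hcon
    push Not at hcon
    rw [hcon.1, hcon.2] at h
    apply he
    rw [← h]
    ring

private theorem one {F : ℤ → ℤ → ℂ} (h : Inv F) {r1 r2 r3 r4 : ℤ} (hr : HTy r1 r2 r3 r4)
    (h0 : F r1 r3 = F r2 r4)
    {p q r s : ℤ} (hd : p * s - q * r = 1) (hpar : (2 : ℤ) ∣ r) (e1 : (3 : ℤ) ∣ q * r1 - p * r2)
    (e2 : (3 : ℤ) ∣ r * r4 - s * r3) : F p r = F q s := by
  obtain ⟨b, hb⟩ := e1
  obtain ⟨c, hc⟩ := e2
  have hpr := (nz hd one_ne_zero).1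
  have hqs := (nz hd one_ne_zero).2
  have hprod : 3 * b * (3 * c) = (q * r1 - p * r2) * (r * r4 - s * r3) := by rw [hb, hc]
  rcases hr with ⟨hr, hr3⟩ | ⟨hr, hr1, hr3, hr4⟩
  · obtain ⟨n1, n2⟩ := nz hr one_ne_zero
    have hT : HTy (p * r4 - q * r3) (3 * b) (3 * c) (s * r1 - r * r2) := by
      refine Or.inl ⟨?_, ?_⟩
      · rw [hprod]
        linear_combination (p * s - q * r) * hr + hd
      · rw [← hc]
        exact dvd_sub (Dvd.dvd.mul_right hpar _) (Dvd.dvd.mul_left hr3 _)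
    have e := h.gam _ b c _ hT r1 r3 r2 r4 n1 n2
    have g1 : (p * r4 - q * r3) * r1 + 3 * b * r3 = p := by
      linear_combination p * hr - r3 * hb
    have g2 : 3 * c * r1 + (s * r1 - r * r2) * r3 = r := by
      linear_combination r * hr - r1 * hc
    have g3 : (p * r4 - q * r3) * r2 + 3 * b * r4 = q := by
      linear_combination q * hr - r4 * hb
    have g4 : 3 * c * r2 + (s * r1 - r * r2) * r4 = s := by
      linear_combination s * hr - r2 * hc
    rw [g1, g2, g3, g4, h0, sub_self] at e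
    exact sub_eq_zero.1 e
  · obtain ⟨n1, n2⟩ := nz hr two_ne_zero
    have hT : HTy (p * r4 - q * r3) (3 * b) (3 * c) (s * r1 - r * r2) := by
      refine Or.inr ⟨?_, ?_, ?_, ?_⟩
      · rw [hprod]
        linear_combination (p * s - q * r) * hr + 2 * hd
      · exact dvd_sub (Dvd.dvd.mul_left hr4 _) (Dvd.dvd.mul_left hr3 _)
      · rw [← hc]
        exact dvd_sub (Dvd.dvd.mul_right hpar _) (Dvd.dvd.mul_left hr3 _)
      · exact dvd_sub (Dvd.dvd.mul_left hr1 _) (Dvd.dvd.mul_right hpar _)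
    have e := h.gam _ b c _ hT r1 r3 r2 r4 n1 n2
    have g1 : (p * r4 - q * r3) * r1 + 3 * b * r3 = 2 * p := by
      linear_combination p * hr - r3 * hb
    have g2 : 3 * c * r1 + (s * r1 - r * r2) * r3 = 2 * r := by
      linear_combination r * hr - r1 * hc
    have g3 : (p * r4 - q * r3) * r2 + 3 * b * r4 = 2 * q := by
      linear_combination q * hr - r4 * hb
    have g4 : 3 * c * r2 + (s * r1 - r * r2) * r4 = 2 * s := by
      linear_combination s * hr - r2 * hc
    rw [g1, g2, g3, g4, h0, sub_self, h.hom 2 p r two_ne_zero hpr,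
      h.hom 2 q s two_ne_zero hqs] at e
    exact sub_eq_zero.1 e

private theorem main {F : ℤ → ℤ → ℂ} (h : Inv F) {κ : ℂ} (k0 : F 1 0 = κ) (b0 : F 0 1 = κ)
    (hfar : StFar) : EqC F 0 := by
  -- homogeneity
  have hs : ∀ (k x y : ℤ), k ≠ 0 → (x ≠ 0 ∨ y ≠ 0) → F (k * x) (k * y) = F x y := h.hom
  have st : ∀ x y : ℤ, (x ≠ 0 ∨ y ≠ 0) → F x y = κ → F (-x) y = κ := by
    intro x y hv hx
    have e := h.st x y 1 0 hv (by norm_num)
    have e0 := hs (-1) 1 0 (by norm_num) (by norm_num)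
    norm_num at e0
    rw [e0, hx, k0, sub_self] at e
    exact sub_eq_zero.1 e
  have ng : ∀ x y : ℤ, (x ≠ 0 ∨ y ≠ 0) → F x y = κ → F (-x) (-y) = κ := by
    intro x y hv hx
    have e := hs (-1) x y (by norm_num) hv
    rw [neg_one_mul, neg_one_mul] at e
    rw [e, hx]
  have mt : HTy 4 (3 * (-1)) (3 * 2) (-4) := Or.inr (by decide)
  have e12 : F 1 2 = F 1 1 := by
    have m1 := h.gam 4 (-1) 2 (-4) mt 1 1 1 2 (by norm_num) (by norm_num)
    have s1 := hs (-2) 1 1 (by norm_num) (by norm_num)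
    norm_num at m1 s1
    rw [s1] at m1
    linear_combination m1 / 2
  have k1 : F 1 1 = κ := by
    have e1 := h.sw 1 1 1 0 (by norm_num) (by norm_num)
    have e2 := h.st 1 2 1 0 (by norm_num) (by norm_num)
    have s1 := hs 2 0 1 (by norm_num) (by norm_num)
    have s2 := hs (-1) 1 0 (by norm_num) (by norm_num)
    norm_num at e1 e2 s1 s2
    rw [s1] at e1
    rw [s2] at e2
    linear_combination (e1 - e2 - e12) / 2 + (b0 + k0) / 2
  have k2 : F 1 2 = κ := by rw [e12, k1]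
  have a1 : F (-1) 1 = κ := st 1 1 (by norm_num) k1
  have a2 : F (-1) 2 = κ := st 1 2 (by norm_num) k2
  have m1 := ng _ _ (by norm_num) k0
  have m2 := ng _ _ (by norm_num) b0
  have m3 := ng _ _ (by norm_num) k1
  have m4 := ng _ _ (by norm_num) a1
  have m7 := ng _ _ (by norm_num) k2
  have m8 := ng _ _ (by norm_num) a2
  simp only [neg_neg, neg_zero] at m1 m2 m3 m4 m7 m8
  have n1 : F 2 0 = κ := by
    have := hs 2 1 0 (by norm_num) (by norm_num)
    norm_num at this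
    rw [this, k0]
  have n2 : F 0 2 = κ := by
    have := hs 2 0 1 (by norm_num) (by norm_num)
    norm_num at this
    rw [this, b0]
  have n3 : F 2 2 = κ := by
    have := hs 2 1 1 (by norm_num) (by norm_num)
    norm_num at this
    rw [this, k1]
  have n6 : F (-2) 2 = κ := st 2 2 (by norm_num) n3
  have n8 : F 0 (-2) = κ := by
    have := ng _ _ (by norm_num) n2
    norm_num at this
    exact this
  refine far2 hfar F h.hom fun p q r s hd hpar => ?_
  have hL : ∀ t ∈ L1 ++ L2, HTy t.1 t.2.1 t.2.2.1 t.2.2.2 ∧ F t.1 t.2.2.1 = κ ∧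
      F t.2.1 t.2.2.2 = κ := by
    intro t ht
    simp only [L1, L2, List.cons_append, List.nil_append, List.mem_cons, List.not_mem_nil,
      or_false] at ht
    rcases ht with rfl | rfl | rfl | rfl | rfl | rfl | rfl | rfl | rfl | rfl | rfl | rfl
    all_goals exact ⟨by unfold HTy; decide, by assumption, by assumption⟩
  have hc : (p : ZMod 3) * s - q * r = 1 := by
    have h' := congrArg (Int.cast : ℤ → ZMod 3) hd
    push_cast at h'
    exact h'
  obtain ⟨t, htL, e1, e2⟩ := cls _ _ _ _ hc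
  obtain ⟨f1, f2, f3⟩ := hL t htL
  exact one h f1 (f2.trans f3.symm) hd hpar (dvd5.2 (by push_cast; exact e1))
    (dvd5.2 (by push_cast; exact e2))

private theorem five {x y : ℤ} (h : x ≠ 0 ∨ y ≠ 0) : x ≠ 0 ∨ 3 * y ≠ 0 := by
  rcases h with h | h
  · exact Or.inl h
  · exact Or.inr (by omega)

/-- BS for `p = 3`. -/
theorem hBs3 (hfar : StFar) : BsH3 := by
  intro K hS hW hst h1
  obtain ⟨hH, hG⟩ := hS
  obtain ⟨F, hF⟩ : ∃ F : ℤ → ℤ → ℂ, ∀ x y, F x y = K x (3 * y) := ⟨fun x y => K x (3 * y),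
    fun _ _ => rfl⟩
  have hI : Inv F := by
    refine ⟨?_, ?_, ?_, ?_⟩
    · intro k p q hk hpq
      rw [hF, hF]
      have := hH k p (3 * q) hk (five hpq)
      rw [← this]
      congr 1; ring
    · intro a b c d hd x y z w hv hw
      have hT : HTy a b (9 * c) d := by
        rcases hd with ⟨h1, h2⟩ | ⟨h1, h2, h3, h4⟩
        · exact Or.inl ⟨by linear_combination h1, by omega⟩
        · exact Or.inr ⟨by linear_combination h1, h2, by omega, h4⟩
      have e := (hG a b (9 * c) d hT (by simp) ⟨c, by norm_num⟩).diff (five hv) (five hw)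
      simp only [act] at e
      rw [hF, hF, hF, hF, ← e]
      congr 2 <;> ring
    · intro x y z w hv hw
      have e := hst.diff (five hv) (five hw)
      simp only [act] at e
      rw [hF, hF, hF, hF, ← e]
      congr 2 <;> ring
    · intro x y z w hv hw
      have e := hW.diff (five hv) (five hw)
      simp only [act, Pi.neg_apply] at e
      have q1 : ∀ x y : ℤ, (x ≠ 0 ∨ y ≠ 0) →
          K (0 * x + -1 * (3 * y)) (2 * (3 : ℤ) ^ 2 * x + 0 * (3 * y)) = F (-y) (2 * x) := by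
        intro x y hv
        rw [hF]
        have := hH 3 (-y) (3 * (2 * x)) (by norm_num) (by omega)
        rw [← this]
        congr 1 <;> ring
      rw [q1 x y hv, q1 z w hw] at e
      rw [e, hF, hF]
      ring
  have hc : EqC F 0 := by
    refine main hI (κ := K 1 0) ?_ ?_ hfar
    · rw [hF]; norm_num
    · rw [hF, h1]
      have := hH 3 0 1 (by norm_num) (by norm_num)
      norm_num at this ⊢
      exact this
  obtain ⟨c, hc⟩ := hc
  refine ⟨c, fun p q hpq => ?_⟩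
  have e1 := hc (3 * p) q (by omega)
  rw [hF] at e1
  have e2 := hH 3 p q (by norm_num) hpq
  rw [← e2, e1]
  simp

end Pool.Agent.Helper93.TLH
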