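import Pool.Agent.Helper93.TLH.StB

/-!
# Project TH (levels `2·5^n`): the levels `50` and `10`
-/

set_option autoImplicit false

namespace Pool.Agent.Helper93.TLH

open Pool.Agent.Helper14.CV (Homog EqC act Tl StFar StFex)
open Pool.Agent.Helper28.WK (Tw evw)
open Pool.Agent.Helper4.TL (OkE)

/-- The content of BS5: a symbol `K` of level `50` with `K∘W ≈ -K`, `K∘* ≈ K` and `K(∞) = K(1/5) = K(2/5)` is constant. -/
def BsH5 : Prop := ∀ K : ℤ → ℤ → ℂ, SymH 5 0 2 K → EqC (act 0 (-1) (2 * (5 : ℤ) ^ 2) 0 K) (-K) →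
  EqC (act (-1) 0 0 1 K) K → K 1 0 = K 1 5 → K 1 5 = K 2 5 → EqC K 0

/-- B3b for `p = 5`, `D = 2` (from AVG, EV, BS5): the same proof as `SEB3b5` (`Pool/Agent/Helper43/TLE/M_B3b.lean`) with `SymH`, `evw 1`, `W = act 0 (-1) (2 * 5^2) 0`; the coordinates are `a K = (K 1 0 - K 1 5, K 1 5 - K 2 5)`. -/
def SHB3b5 : Prop := SHAvg → SHEv → BsH5 → B3bH 5 2

/-- CORE2 (level `50`): the same proof as `SECore2` (`Pool/Agent/Helper99/TLE/M_Core2.lean`). -/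
def SHCore2 : Prop := ∀ dd : ℕ → ℕ, SHAvg → SHEv → BsH5 → LBH 5 2 dd → CoreV 5 2

end Pool.Agent.Helper93.TLH
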