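import Pool.Agent.Helper93.TLH.StB2

/-!
# Project TH: the level `2 p^2` for general `p`
-/

set_option autoImplicit false

namespace Pool.Agent.Helper93.TLH

open Pool.Agent.Helper14.CV (Homog EqC act Tl StFar StFex)
open Pool.Agent.Helper28.WK (Tw evw)
open Pool.Agent.Helper4.TL (OkE)

/-- A symbol `K` of level `2 p^2` with `K∘W ≈ -K`, `K∘* ≈ K` and `a K = 0` is constant. -/
def BsG (p D : ℕ) (a : (ℤ → ℤ → ℂ) →ₗ[ℂ] (Fin D → ℂ)) : Prop := ∀ K : ℤ → ℤ → ℂ, SymH p 0 2 K →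
  EqC (act 0 (-1) (2 * (p : ℤ) ^ 2) 0 K) (-K) → EqC (act (-1) 0 0 1 K) K → a K = 0 → EqC K 0

/-- B3b for all odd `p`: the proof of `Pool.Agent.Helper83.TLH.hB3b` (`Pool/Agent/Helper83/TLH/M_B3b.lean`) with `p` in the place of `5`, `D` in the place of `2`, and `a` restricted to `V` (the symbols of level `2 p^2` with `W = -1`, `* = 1`) in the place of `aV`. -/
def SHB3bG : Prop := ∀ (p D : ℕ) (a : (ℤ → ℤ → ℂ) →ₗ[ℂ] (Fin D → ℂ)), p.Prime → p ≠ 2 →
  SHAvg → SHEv → BsG p D a → B3bH p D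

/-- CORE2 for all odd `p`: the proof of `Pool.Agent.Helper3.TLH.hCore2` (`Pool/Agent/Helper3/TLH/M_Core2.lean`): `D` symbols `K_k` in `PV` with `evLH p (K_k)` linearly independent; if `a G ≠ 0` or not, the `D + 1` vectors `a K_k`, `a G` in `Fin D → ℂ` are dependent, and
the dependence makes a combination `T` with `a T = 0`, so `T ≈ 0` and `evLH T = 0`, so the coefficients of the `K_k` vanish (`evLH G = 0`), that of `G` does not, `a G = 0`. -/
def SHCore2G : Prop := ∀ (p D : ℕ) (a : (ℤ → ℤ → ℂ) →ₗ[ℂ] (Fin D → ℂ)), p.Prime → p ≠ 2 →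
  ∀ dd : ℕ → ℕ, SHAvg → SHEv → BsG p D a → LBH p D dd → CoreV p 2

end Pool.Agent.Helper93.TLH
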